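import Mathlib

/-! Noisy min-max game on the `d`-ary tree, `d` large: deterministic analysis of the recursion of
the distribution functions. -/

set_option autoImplicit false

namespace Pool.Agent.R975.MM

open Set Filter Topology

noncomputable def H (d : ℕ) (a b : ℝ) : ℝ := (1 - (1 - a) ^ d / 2 - (1 - b) ^ d / 2) ^ d

noncomputable def g (d : ℕ) (x y z : ℝ) : ℝ := H d ((x + y) / 2) ((y + z) / 2)

noncomputable def Psi (d : ℕ) (f : ℤ → ℝ) (k : ℤ) : ℝ := g d (f (k - 1)) (f k) (f (k + 1))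

noncomputable def ep (d : ℕ) : ℝ := d * (5 / 8) ^ d

noncomputable def ka (d : ℕ) : ℝ := (d : ℝ) ^ 2 * (7 / 8) ^ (d - 1)

/-- `d` is large -/
structure Big (d : ℕ) : Prop where
  ka_le : ka d ≤ 1 / 8
  log_ge : 14 ≤ Real.log d

/-- normal form -/
structure Nf (d : ℕ) (f : ℤ → ℝ) : Prop where
  mono : Monotone f
  mem : ∀ k, f k ∈ Icc (0 : ℝ) 1
  left : f (-1) ≤ ep d
  right : 1 - ep d ≤ f 1

section

variable {d : ℕ}

lemma Big.pos (hd : Big d) : 1 ≤ d := by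
  by_contra h
  have : d = 0 := by omega
  have h2 := hd.log_ge
  rw [this] at h2
  simp at h2
  linarith

lemma Big.posR (hd : Big d) : (1 : ℝ) ≤ d := by exact_mod_cast hd.pos

lemma Big.ep_sq (hd : Big d) : (d : ℝ) ^ 2 * (5 / 8) ^ d ≤ 1 / 8 := by
  have h1 : (5 / 8 : ℝ) ^ d ≤ (7 / 8) ^ (d - 1) := by
    calc (5 / 8 : ℝ) ^ d ≤ (5 / 8) ^ (d - 1) :=
          pow_le_pow_of_le_one (by norm_num) (by norm_num) (Nat.sub_le d 1)
      _ ≤ _ := pow_le_pow_left₀ (by norm_num) (by norm_num) _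
  have h2 := hd.ka_le
  unfold ka at h2
  have h3 := mul_le_mul_of_nonneg_left h1 (show (0 : ℝ) ≤ (d : ℝ) ^ 2 by positivity)
  linarith

lemma Big.d_ep (hd : Big d) : d * ep d ≤ 1 / 8 := by
  have := hd.ep_sq
  unfold ep
  nlinarith

lemma ep_nonneg : 0 ≤ ep d := by unfold ep; positivity

lemma Big.ep_le (hd : Big d) : ep d ≤ 1 / 8 := by
  have h1 := hd.d_ep
  have h2 := hd.posR
  have h3 := ep_nonneg (d := d)
  nlinarith

lemma Big.pow_le_ep (hd : Big d) : (5 / 8 : ℝ) ^ d ≤ ep d := by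
  unfold ep
  have h2 := hd.posR
  have h3 : (0 : ℝ) < (5 / 8) ^ d := by positivity
  nlinarith

/-! ### elementary inequalities -/

lemma pow_sub_le {x y m : ℝ} (hx : 0 ≤ x) (hy : 0 ≤ y) (hxm : x ≤ m) (hym : y ≤ m) (n : ℕ) :
    |x ^ n - y ^ n| ≤ n * m ^ (n - 1) * |x - y| := by
  have hm : 0 ≤ m := hx.trans hxm
  cases n with
  | zero => simp
  | succ n =>
    have h1 : x ^ (n + 1) - y ^ (n + 1) = (∑ i ∈ Finset.range (n + 1), x ^ i * y ^ (n - i)) *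
        (x - y) := by
      have := (Commute.all x y).geom_sum₂_mul (n + 1)
      simpa using this.symm
    rw [h1, abs_mul]
    apply mul_le_mul_of_nonneg_right _ (abs_nonneg _)
    have h2 : ∀ i ∈ Finset.range (n + 1), |x ^ i * y ^ (n - i)| ≤ m ^ n := by
      intro i hi
      have hi' : i ≤ n := by simpa [Nat.lt_succ_iff] using hi
      rw [abs_of_nonneg (by positivity)]
      calc x ^ i * y ^ (n - i) ≤ m ^ i * m ^ (n - i) :=
            mul_le_mul (pow_le_pow_left₀ hx hxm _) (pow_le_pow_left₀ hy hym _) (by positivity)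
              (by positivity)
        _ = m ^ n := by rw [← pow_add]; congr 1; omega
    calc |∑ i ∈ Finset.range (n + 1), x ^ i * y ^ (n - i)| ≤
          ∑ i ∈ Finset.range (n + 1), |x ^ i * y ^ (n - i)| := Finset.abs_sum_le_sum_abs _ _
      _ ≤ ∑ i ∈ Finset.range (n + 1), m ^ n := Finset.sum_le_sum h2
      _ = ((n + 1 : ℕ) : ℝ) * m ^ (n + 1 - 1) := by simp

lemma pow_sub_ge {x y : ℝ} (hy : 0 ≤ y) (hxy : y ≤ x) (n : ℕ) :
    n * y ^ (n - 1) * (x - y) ≤ x ^ n - y ^ n := by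
  cases n with
  | zero => simp
  | succ n =>
    have h1 : x ^ (n + 1) - y ^ (n + 1) = (∑ i ∈ Finset.range (n + 1), x ^ i * y ^ (n - i)) *
        (x - y) := by
      have := (Commute.all x y).geom_sum₂_mul (n + 1)
      simpa using this.symm
    rw [h1]
    apply mul_le_mul_of_nonneg_right _ (by linarith)
    have h2 : ∀ i ∈ Finset.range (n + 1), y ^ n ≤ x ^ i * y ^ (n - i) := by
      intro i hi
      have hi' : i ≤ n := by simpa [Nat.lt_succ_iff] using hi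
      calc y ^ n = y ^ i * y ^ (n - i) := by rw [← pow_add]; congr 1; omega
        _ ≤ x ^ i * y ^ (n - i) :=
            mul_le_mul_of_nonneg_right (pow_le_pow_left₀ hy hxy _) (by positivity)
    calc ((n + 1 : ℕ) : ℝ) * y ^ (n + 1 - 1) = ∑ i ∈ Finset.range (n + 1), y ^ n := by simp
      _ ≤ _ := Finset.sum_le_sum h2

lemma one_sub_pow_ge {x : ℝ} (hx : 0 ≤ x) (hx1 : x ≤ 1) (n : ℕ) : 1 - n * x ≤ (1 - x) ^ n := by
  have := one_add_mul_le_pow (show (-2 : ℝ) ≤ -x by linarith) n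
  have e : 1 + (-x) = 1 - x := by ring
  rw [e] at this
  linarith

/-- the inner expression -/
noncomputable def uu (d : ℕ) (a b : ℝ) : ℝ := 1 - (1 - a) ^ d / 2 - (1 - b) ^ d / 2

lemma uu_mem {a b : ℝ} (ha : a ∈ Icc (0 : ℝ) 1) (hb : b ∈ Icc (0 : ℝ) 1) :
    uu d a b ∈ Icc (0 : ℝ) 1 := by
  have h1 : (1 - a) ^ d ≤ 1 := pow_le_one₀ (by linarith [ha.2]) (by linarith [ha.1])
  have h2 : (1 - b) ^ d ≤ 1 := pow_le_one₀ (by linarith [hb.2]) (by linarith [hb.1])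
  have h3 : 0 ≤ (1 - a) ^ d := pow_nonneg (by linarith [ha.2]) _
  have h4 : 0 ≤ (1 - b) ^ d := pow_nonneg (by linarith [hb.2]) _
  unfold uu
  constructor <;> linarith

lemma H_mem {a b : ℝ} (ha : a ∈ Icc (0 : ℝ) 1) (hb : b ∈ Icc (0 : ℝ) 1) :
    H d a b ∈ Icc (0 : ℝ) 1 := by
  have h := uu_mem (d := d) ha hb
  exact ⟨pow_nonneg h.1 _, pow_le_one₀ h.1 h.2⟩

lemma uu_mono {a b a' b' : ℝ} (ha' : a' ≤ 1) (hb' : b' ≤ 1)
    (haa : a ≤ a') (hbb : b ≤ b') : uu d a b ≤ uu d a' b' := by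
  have h1 : (1 - a') ^ d ≤ (1 - a) ^ d := pow_le_pow_left₀ (by linarith) (by linarith) _
  have h2 : (1 - b') ^ d ≤ (1 - b) ^ d := pow_le_pow_left₀ (by linarith) (by linarith) _
  unfold uu
  linarith

lemma H_mono {a b a' b' : ℝ} (ha : 0 ≤ a) (hb : 0 ≤ b) (ha' : a' ≤ 1) (hb' : b' ≤ 1)
    (haa : a ≤ a') (hbb : b ≤ b') : H d a b ≤ H d a' b' :=
  pow_le_pow_left₀ (uu_mem (d := d) ⟨ha, haa.trans ha'⟩ ⟨hb, hbb.trans hb'⟩).1
    (uu_mono ha' hb' haa hbb) _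

lemma avg_mem {x y : ℝ} (hx : x ∈ Icc (0 : ℝ) 1) (hy : y ∈ Icc (0 : ℝ) 1) :
    (x + y) / 2 ∈ Icc (0 : ℝ) 1 := ⟨by linarith [hx.1, hy.1], by linarith [hx.2, hy.2]⟩

lemma g_mem {x y z : ℝ} (hx : x ∈ Icc (0 : ℝ) 1) (hy : y ∈ Icc (0 : ℝ) 1)
    (hz : z ∈ Icc (0 : ℝ) 1) : g d x y z ∈ Icc (0 : ℝ) 1 :=
  H_mem (avg_mem hx hy) (avg_mem hy hz)

lemma g_mono {x y z x' y' z' : ℝ} (hx : 0 ≤ x) (hy : 0 ≤ y) (hz : 0 ≤ z)
    (hx' : x' ≤ 1) (hy' : y' ≤ 1) (hz' : z' ≤ 1)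
    (hxx : x ≤ x') (hyy : y ≤ y') (hzz : z ≤ z') : g d x y z ≤ g d x' y' z' :=
  H_mono (by linarith) (by linarith) (by linarith) (by linarith) (by linarith) (by linarith)

lemma Psi_mono {f f' : ℤ → ℝ} (hf : ∀ k, f k ∈ Icc (0 : ℝ) 1) (hf' : ∀ k, f' k ∈ Icc (0 : ℝ) 1)
    (h : ∀ k, f k ≤ f' k) (k : ℤ) : Psi d f k ≤ Psi d f' k :=
  g_mono (hf _).1 (hf _).1 (hf _).1 (hf' _).2 (hf' _).2 (hf' _).2 (h _) (h _) (h _)

lemma H_lip {a b a' b' M m1 m2 δ : ℝ} (ha : a ∈ Icc (0 : ℝ) 1) (hb : b ∈ Icc (0 : ℝ) 1)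
    (ha' : a' ∈ Icc (0 : ℝ) 1) (hb' : b' ∈ Icc (0 : ℝ) 1)
    (hM : uu d a b ≤ M) (hM' : uu d a' b' ≤ M)
    (h1 : 1 - a ≤ m1) (h1' : 1 - a' ≤ m1) (h2 : 1 - b ≤ m2) (h2' : 1 - b' ≤ m2)
    (hδ1 : |a - a'| ≤ δ) (hδ2 : |b - b'| ≤ δ) :
    |H d a b - H d a' b'| ≤ d * M ^ (d - 1) * (d / 2 * (m1 ^ (d - 1) + m2 ^ (d - 1)) * δ) := by
  have hu := uu_mem (d := d) ha hb
  have hu' := uu_mem (d := d) ha' hb'
  have hM0 : 0 ≤ M := hu.1.trans hM
  have hm1 : 0 ≤ m1 := by linarith [ha.2]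
  have hm2 : 0 ≤ m2 := by linarith [hb.2]
  have e1 := pow_sub_le hu.1 hu'.1 hM hM' d
  refine e1.trans ?_
  apply mul_le_mul_of_nonneg_left _ (by positivity)
  have e2 := pow_sub_le (x := 1 - a) (y := 1 - a') (by linarith [ha.2]) (by linarith [ha'.2]) h1 h1' d
  have e3 := pow_sub_le (x := 1 - b) (y := 1 - b') (by linarith [hb.2]) (by linarith [hb'.2]) h2 h2' d
  have e4 : |1 - a - (1 - a')| = |a - a'| := by
    rw [show 1 - a - (1 - a') = -(a - a') by ring, abs_neg]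
  have e5 : |1 - b - (1 - b')| = |b - b'| := by
    rw [show 1 - b - (1 - b') = -(b - b') by ring, abs_neg]
  rw [e4] at e2
  rw [e5] at e3
  have e6 : uu d a b - uu d a' b' = -(((1 - a) ^ d - (1 - a') ^ d) / 2 +
      ((1 - b) ^ d - (1 - b') ^ d) / 2) := by
    unfold uu; ring
  rw [e6, abs_neg]
  have e7 : |((1 - a) ^ d - (1 - a') ^ d) / 2 + ((1 - b) ^ d - (1 - b') ^ d) / 2| ≤
      |(1 - a) ^ d - (1 - a') ^ d| / 2 + |(1 - b) ^ d - (1 - b') ^ d| / 2 := by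
    refine (abs_add_le _ _).trans (le_of_eq ?_)
    rw [abs_div, abs_div, abs_two]
  have e8 : (d : ℝ) * m1 ^ (d - 1) * |a - a'| ≤ d * m1 ^ (d - 1) * δ :=
    mul_le_mul_of_nonneg_left hδ1 (by positivity)
  have e9 : (d : ℝ) * m2 ^ (d - 1) * |b - b'| ≤ d * m2 ^ (d - 1) * δ :=
    mul_le_mul_of_nonneg_left hδ2 (by positivity)
  calc _ ≤ _ := e7
    _ ≤ (d * m1 ^ (d - 1) * δ) / 2 + (d * m2 ^ (d - 1) * δ) / 2 := by linarith
    _ = _ := by ring

/-! ### the normal form is invariant -/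

lemma Nf.left_le (hd : Big d) {f : ℤ → ℝ} (hf : Nf d f) {k : ℤ} (hk : k ≤ -1) : d * f k ≤ 1 / 8 := by
  have h1 : f k ≤ ep d := (hf.mono hk).trans hf.left
  have h2 := mul_le_mul_of_nonneg_left h1 (show (0 : ℝ) ≤ d by positivity)
  exact h2.trans hd.d_ep

lemma Nf.right_ge (hd : Big d) {f : ℤ → ℝ} (hf : Nf d f) {k : ℤ} (hk : 1 ≤ k) : 7 / 8 ≤ f k := by
  have h1 : 1 - ep d ≤ f k := hf.right.trans (hf.mono hk)
  linarith [hd.ep_le]

/-- left: the inner expression is at most `5/8` when the first argument is small -/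
lemma uu_small {a b : ℝ} (ha : a ∈ Icc (0 : ℝ) 1) (hb : b ∈ Icc (0 : ℝ) 1)
    (h : d * a ≤ 1 / 4) : uu d a b ≤ 5 / 8 := by
  have h1 := one_sub_pow_ge ha.1 ha.2 d
  have h4 : 0 ≤ (1 - b) ^ d := pow_nonneg (by linarith [hb.2]) _
  unfold uu
  linarith

lemma H_ge {a b m1 m2 : ℝ} (ha : a ∈ Icc (0 : ℝ) 1) (hb : b ∈ Icc (0 : ℝ) 1)
    (h1 : (1 - a) ^ d ≤ m1) (h2 : (1 - b) ^ d ≤ m2) : 1 - d / 2 * (m1 + m2) ≤ H d a b := by
  have hu := uu_mem (d := d) ha hb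
  have h3 := one_sub_pow_ge (x := 1 - uu d a b) (by linarith [hu.2]) (by linarith [hu.1]) d
  rw [sub_sub_cancel] at h3
  refine le_trans ?_ h3
  have h4 : 1 - uu d a b ≤ (m1 + m2) / 2 := by unfold uu; linarith
  have h5 := mul_le_mul_of_nonneg_left h4 (show (0 : ℝ) ≤ d by positivity)
  linarith

lemma pow58 {b : ℝ} (hb : b ≤ 1) (h : 3 / 8 ≤ b) : (1 - b) ^ d ≤ (5 / 8) ^ d :=
  pow_le_pow_left₀ (by linarith) (by linarith) _

lemma g_small {x y z : ℝ} (hx : x ∈ Icc (0 : ℝ) 1) (hy : y ∈ Icc (0 : ℝ) 1)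
    (hz : z ∈ Icc (0 : ℝ) 1) (h1 : d * x ≤ 1 / 4) (h2 : d * y ≤ 1 / 4) :
    g d x y z ≤ (5 / 8) ^ d := by
  have ha := avg_mem hx hy
  have hb := avg_mem hy hz
  have h3 : uu d ((x + y) / 2) ((y + z) / 2) ≤ 5 / 8 := uu_small ha hb (by linarith)
  exact pow_le_pow_left₀ (uu_mem ha hb).1 h3 _

lemma g_large {x y z m : ℝ} (hx : x ∈ Icc (0 : ℝ) 1) (hy : y ∈ Icc (0 : ℝ) 1)
    (hz : z ∈ Icc (0 : ℝ) 1) (h1 : 1 - m ≤ (x + y) / 2) (h2 : 1 - m ≤ (y + z) / 2) :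
    1 - d * m ^ d ≤ g d x y z := by
  have ha := avg_mem hx hy
  have hb := avg_mem hy hz
  have h3 : (1 - (x + y) / 2) ^ d ≤ m ^ d :=
    pow_le_pow_left₀ (by linarith [ha.2]) (by linarith) _
  have h4 : (1 - (y + z) / 2) ^ d ≤ m ^ d :=
    pow_le_pow_left₀ (by linarith [hb.2]) (by linarith) _
  refine le_trans (le_of_eq ?_) (H_ge (d := d) ha hb h3 h4)
  ring

lemma avg_dist {x y x' y' δ : ℝ} (h1 : |x - x'| ≤ δ) (h2 : |y - y'| ≤ δ) :
    |(x + y) / 2 - (x' + y') / 2| ≤ δ := by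
  have d1 := abs_le.1 h1
  have d2 := abs_le.1 h2
  rw [abs_le]
  constructor <;> linarith [d1.1, d1.2, d2.1, d2.2]

lemma pow57 : (5 / 8 : ℝ) ^ (d - 1) ≤ (7 / 8) ^ (d - 1) :=
  pow_le_pow_left₀ (by norm_num) (by norm_num) _

lemma g_contr_left {x y z x' y' z' δ : ℝ} (hx : x ∈ Icc (0 : ℝ) 1) (hy : y ∈ Icc (0 : ℝ) 1)
    (hz : z ∈ Icc (0 : ℝ) 1) (hx' : x' ∈ Icc (0 : ℝ) 1) (hy' : y' ∈ Icc (0 : ℝ) 1)
    (hz' : z' ∈ Icc (0 : ℝ) 1) (d1 : |x - x'| ≤ δ) (d2 : |y - y'| ≤ δ) (d3 : |z - z'| ≤ δ)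
    (h1 : d * x ≤ 1 / 4) (h2 : d * y ≤ 1 / 4) (h1' : d * x' ≤ 1 / 4) (h2' : d * y' ≤ 1 / 4) :
    |g d x y z - g d x' y' z'| ≤ ka d * δ := by
  have hδ0 : 0 ≤ δ := (abs_nonneg _).trans d1
  have ha := avg_mem hx hy
  have hb := avg_mem hy hz
  have ha' := avg_mem hx' hy'
  have hb' := avg_mem hy' hz'
  have h3 : uu d ((x + y) / 2) ((y + z) / 2) ≤ 5 / 8 := uu_small ha hb (by linarith)
  have h4 : uu d ((x' + y') / 2) ((y' + z') / 2) ≤ 5 / 8 := uu_small ha' hb' (by linarith)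
  have h5 := H_lip (d := d) (M := 5 / 8) (m1 := 1) (m2 := 1) ha hb ha' hb'
    h3 h4 (by linarith [ha.1]) (by linarith [ha'.1]) (by linarith [hb.1]) (by linarith [hb'.1])
    (avg_dist d1 d2) (avg_dist d2 d3)
  refine h5.trans ?_
  unfold ka
  simp only [one_pow]
  have : (d : ℝ) * (5 / 8) ^ (d - 1) * ((d : ℝ) / 2 * (1 + 1) * δ) =
      (d : ℝ) ^ 2 * (5 / 8) ^ (d - 1) * δ := by ring
  rw [this]
  apply mul_le_mul_of_nonneg_right _ hδ0
  exact mul_le_mul_of_nonneg_left pow57 (by positivity)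

lemma g_contr_right {x y z x' y' z' δ : ℝ} (hx : x ∈ Icc (0 : ℝ) 1) (hy : y ∈ Icc (0 : ℝ) 1)
    (hz : z ∈ Icc (0 : ℝ) 1) (hx' : x' ∈ Icc (0 : ℝ) 1) (hy' : y' ∈ Icc (0 : ℝ) 1)
    (hz' : z' ∈ Icc (0 : ℝ) 1) (d1 : |x - x'| ≤ δ) (d2 : |y - y'| ≤ δ) (d3 : |z - z'| ≤ δ)
    (h1 : 1 / 4 ≤ y) (h2 : 3 / 4 ≤ z) (h1' : 1 / 4 ≤ y') (h2' : 3 / 4 ≤ z') :
    |g d x y z - g d x' y' z'| ≤ ka d * δ := by
  have hδ0 : 0 ≤ δ := (abs_nonneg _).trans d1
  have ha := avg_mem hx hy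
  have hb := avg_mem hy hz
  have ha' := avg_mem hx' hy'
  have hb' := avg_mem hy' hz'
  have h5 := H_lip (d := d) (M := 1) (m1 := 7 / 8) (m2 := 7 / 8) ha hb ha' hb'
    (uu_mem ha hb).2 (uu_mem ha' hb').2 (by linarith [hx.1]) (by linarith [hx'.1]) (by linarith)
    (by linarith) (avg_dist d1 d2) (avg_dist d2 d3)
  refine h5.trans (le_of_eq ?_)
  unfold ka
  simp only [one_pow]
  ring

lemma Nf.Psi (hd : Big d) {f : ℤ → ℝ} (hf : Nf d f) : Nf d (Psi d f) := by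
  have hmem : ∀ k, MM.Psi d f k ∈ Icc (0 : ℝ) 1 := fun k => g_mem (hf.mem _) (hf.mem _) (hf.mem _)
  refine ⟨?_, hmem, ?_, ?_⟩
  · intro k l hkl
    exact g_mono (hf.mem _).1 (hf.mem _).1 (hf.mem _).1 (hf.mem _).2 (hf.mem _).2 (hf.mem _).2
      (hf.mono (by linarith)) (hf.mono hkl) (hf.mono (by linarith))
  · have h1 := hf.left_le hd (k := -1) le_rfl
    have h2 := hf.left_le hd (k := -1 - 1) (by norm_num)
    exact (g_small (hf.mem _) (hf.mem _) (hf.mem _) (h2.trans (by norm_num))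
      (h1.trans (by norm_num))).trans hd.pow_le_ep
  · have h1 := hf.right_ge hd (k := 1) le_rfl
    have h2 := hf.right_ge hd (k := 1 + 1) (by norm_num)
    have h0 := (hf.mem (1 - 1)).1
    refine le_trans (le_of_eq ?_) (g_large (m := 5 / 8) (hf.mem _) (hf.mem _) (hf.mem _) ?_ ?_)
    · unfold ep
      ring
    · generalize f (1 - 1) = x at h0 ⊢
      linarith
    · generalize f (1 + 1) = z at h2 ⊢
      linarith

/-- contraction away from the coordinate `0` -/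
lemma contr_off (hd : Big d) {f f' : ℤ → ℝ} (hf : Nf d f) (hf' : Nf d f') {δ : ℝ}
    (hδ : ∀ k, |f k - f' k| ≤ δ) {k : ℤ} (hk : k ≠ 0) :
    |Psi d f k - Psi d f' k| ≤ ka d * δ := by
  rcases lt_or_gt_of_ne hk with h | h
  · exact g_contr_left (hf.mem _) (hf.mem _) (hf.mem _) (hf'.mem _) (hf'.mem _) (hf'.mem _)
      (hδ _) (hδ _) (hδ _) ((hf.left_le hd (by omega)).trans (by norm_num))
      ((hf.left_le hd (by omega)).trans (by norm_num))
      ((hf'.left_le hd (by omega)).trans (by norm_num))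
      ((hf'.left_le hd (by omega)).trans (by norm_num))
  · exact g_contr_right (hf.mem _) (hf.mem _) (hf.mem _) (hf'.mem _) (hf'.mem _) (hf'.mem _)
      (hδ _) (hδ _) (hδ _) (le_trans (by norm_num) (hf.right_ge hd (by omega)))
      (le_trans (by norm_num) (hf.right_ge hd (by omega)))
      (le_trans (by norm_num) (hf'.right_ge hd (by omega)))
      (le_trans (by norm_num) (hf'.right_ge hd (by omega)))

/-- contraction in the upper region -/
lemma contr_up (hd : Big d) {f f' : ℤ → ℝ} (hf : Nf d f) (hf' : Nf d f') {δ : ℝ}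
    (hδ : ∀ k, |f k - f' k| ≤ δ) (hu : 1 / 4 ≤ f 0) (hu' : 1 / 4 ≤ f' 0) (k : ℤ) :
    |Psi d f k - Psi d f' k| ≤ ka d * δ := by
  by_cases hk : k = 0
  · subst hk
    exact g_contr_right (hf.mem _) (hf.mem _) (hf.mem _) (hf'.mem _) (hf'.mem _) (hf'.mem _)
      (hδ _) (hδ _) (hδ _) hu (le_trans (by norm_num) (hf.right_ge hd (by norm_num)))
      hu' (le_trans (by norm_num) (hf'.right_ge hd (by norm_num)))
  · exact contr_off hd hf hf' hδ hk

/-- contraction in the lower region -/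
lemma contr_down (hd : Big d) {f f' : ℤ → ℝ} (hf : Nf d f) (hf' : Nf d f') {δ : ℝ}
    (hδ : ∀ k, |f k - f' k| ≤ δ) (hu : d * f 0 ≤ 1 / 4) (hu' : d * f' 0 ≤ 1 / 4) (k : ℤ) :
    |Psi d f k - Psi d f' k| ≤ ka d * δ := by
  by_cases hk : k = 0
  · subst hk
    exact g_contr_left (hf.mem _) (hf.mem _) (hf.mem _) (hf'.mem _) (hf'.mem _) (hf'.mem _)
      (hδ _) (hδ _) (hδ _) ((hf.left_le hd (by norm_num)).trans (by norm_num)) hu
      ((hf'.left_le hd (by norm_num)).trans (by norm_num)) hu'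
  · exact contr_off hd hf hf' hδ hk

lemma d_pow78 (hd : Big d) : d * (7 / 8 : ℝ) ^ d ≤ 1 / 8 := by
  have h1 := hd.ka_le
  unfold ka at h1
  have h2 := hd.posR
  have h3 : (7 / 8 : ℝ) ^ d ≤ (7 / 8) ^ (d - 1) :=
    pow_le_pow_of_le_one (by norm_num) (by norm_num) (Nat.sub_le d 1)
  have h4 : (0 : ℝ) ≤ (7 / 8) ^ (d - 1) := by positivity
  have h5 : (0 : ℝ) ≤ (7 / 8) ^ d := by positivity
  calc d * (7 / 8 : ℝ) ^ d ≤ (d * d) * (7 / 8 : ℝ) ^ (d - 1) := by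
        apply mul_le_mul _ h3 h5 (by positivity)
        nlinarith
    _ = (d : ℝ) ^ 2 * (7 / 8) ^ (d - 1) := by ring
    _ ≤ 1 / 8 := h1

lemma up_inv (hd : Big d) {f : ℤ → ℝ} (hf : Nf d f) (hu : 1 / 4 ≤ f 0) : 1 / 4 ≤ Psi d f 0 := by
  have h1 := hf.right_ge hd (k := 0 + 1) (by norm_num)
  have h0 := (hf.mem (0 - 1)).1
  have h3 := g_large (d := d) (m := 7 / 8) (hf.mem (0 - 1)) (hf.mem 0) (hf.mem (0 + 1))
    (by generalize f (0 - 1) = x at h0 ⊢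
        linarith) (by generalize f (0 + 1) = z at h1 ⊢
                      linarith)
  have h4 := d_pow78 hd
  refine le_trans ?_ h3
  linarith

lemma down_inv (hd : Big d) {f : ℤ → ℝ} (hf : Nf d f) (hu : d * f 0 ≤ 1 / 4) :
    d * Psi d f 0 ≤ 1 / 4 := by
  have h1 := hf.left_le hd (k := 0 - 1) (by norm_num)
  have h4 : Psi d f 0 ≤ (5 / 8) ^ d := g_small (hf.mem _) (hf.mem _) (hf.mem _)
    (h1.trans (by norm_num)) hu
  have h5 := mul_le_mul_of_nonneg_left h4 (show (0 : ℝ) ≤ d by positivity)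
  have h6 := hd.ep_le
  unfold ep at h6
  linarith

/-! ### thresholds -/

noncomputable def Y1 (d : ℕ) : ℝ := Real.log d / (2 * d)

noncomputable def Y2 (d : ℕ) : ℝ := 4 * Real.log d / d

lemma Big.dpos (hd : Big d) : (0 : ℝ) < d := by linarith [hd.posR]

/-- `√d` is much larger than `log d` -/
lemma Big.sqrt_ge (hd : Big d) : 4 * Real.log d + 1 / 16 * Real.log d ≤ Real.exp (Real.log d / 2) := by
  have hL := hd.log_ge
  set L := Real.log d
  have h1 : (L / 2) ^ 3 / 6 ≤ Real.exp (L / 2) := by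
    have := Real.pow_div_factorial_le_exp (L / 2) (by linarith) 3
    simpa [Nat.factorial] using this
  refine le_trans ?_ h1
  nlinarith [sq_nonneg (L - 14)]

lemma exp_log_half (hd : Big d) : Real.exp (Real.log d / 2) ^ 2 = d := by
  rw [← Real.exp_nat_mul]
  rw [show ((2 : ℕ) : ℝ) * (Real.log d / 2) = Real.log d by push_cast; ring]
  exact Real.exp_log hd.dpos

lemma Y2_lt (hd : Big d) : Y2 d < 1 / 4 := by
  unfold Y2
  rw [div_lt_iff₀ hd.dpos]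
  have h1 := hd.sqrt_ge
  have h2 := exp_log_half hd
  have h3 := hd.log_ge
  have h4 : 4 * Real.log d ≤ Real.exp (Real.log d / 2) := by linarith
  nlinarith

lemma Y1_gt (hd : Big d) : 1 / 4 < d * Y1 d := by
  have h : d * Y1 d = Real.log d / 2 := by
    unfold Y1
    have := hd.dpos
    field_simp
  rw [h]
  linarith [hd.log_ge]

lemma Y1_lt_Y2 (hd : Big d) : Y1 d < Y2 d := by
  unfold Y1 Y2
  have h := hd.dpos
  have h2 := hd.log_ge
  rw [div_lt_div_iff₀ (by positivity) h]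
  nlinarith

/-- above `Y2` one goes up -/
lemma go_up (hd : Big d) {f : ℤ → ℝ} (hf : Nf d f) (hu : Y2 d ≤ f 0) : 1 / 4 ≤ Psi d f 0 := by
  have h1 := hf.right_ge hd (k := 0 + 1) (by norm_num)
  have h0 := hf.mem (0 - 1)
  have hf0 := hf.mem 0
  have h1m := hf.mem (0 + 1)
  show 1 / 4 ≤ g d (f (0 - 1)) (f 0) (f (0 + 1))
  generalize f (0 - 1) = x at *
  generalize f (0 + 1) = z at *
  generalize f 0 = y at *
  have ha := avg_mem h0 hf0
  have hb := avg_mem hf0 h1m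
  have hp1 : (1 - (x + y) / 2) ^ d ≤ 1 / (d : ℝ) ^ 2 := by
    have h2 : 1 - (x + y) / 2 ≤ Real.exp (-(Y2 d / 2)) := by
      have := Real.add_one_le_exp (-(Y2 d / 2))
      linarith [h0.1]
    calc (1 - (x + y) / 2) ^ d ≤ Real.exp (-(Y2 d / 2)) ^ d :=
          pow_le_pow_left₀ (by linarith [ha.2]) h2 _
      _ = Real.exp (-(2 * Real.log d)) := by
          rw [← Real.exp_nat_mul]
          congr 1
          unfold Y2
          have := hd.dpos
          field_simp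
          ring
      _ = 1 / (d : ℝ) ^ 2 := by
          rw [Real.exp_neg, show 2 * Real.log d = ((2 : ℕ) : ℝ) * Real.log d by norm_num,
            Real.exp_nat_mul, Real.exp_log hd.dpos, one_div]
  have hb38 : 3 / 8 ≤ (y + z) / 2 := by linarith [hf0.1]
  have h3 := H_ge (d := d) ha hb hp1 (pow58 hb.2 hb38)
  refine le_trans ?_ h3
  have h4 := hd.ep_le
  unfold ep at h4
  have h5 : (d : ℝ) / 2 * (1 / (d : ℝ) ^ 2) ≤ 1 / 2 := by
    have := hd.dpos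
    have h6 := hd.posR
    rw [show (d : ℝ) / 2 * (1 / (d : ℝ) ^ 2) = 1 / (2 * d) by field_simp]
    rw [div_le_div_iff₀ (by positivity) (by norm_num)]
    linarith
  nlinarith

lemma one_sub_ge_exp {a : ℝ} (ha : 0 ≤ a) (ha2 : a ≤ 1 / 2) : Real.exp (-(2 * a)) ≤ 1 - a := by
  have h1 : 1 + 2 * a ≤ Real.exp (2 * a) := by
    have := Real.add_one_le_exp (2 * a); linarith
  rw [Real.exp_neg, inv_le_comm₀ (Real.exp_pos _) (by linarith)]
  refine le_trans ?_ h1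
  rw [inv_le_comm₀ (by linarith) (by linarith), inv_eq_one_div, div_le_iff₀ (by linarith)]
  nlinarith

/-- below `Y1` one goes down -/
lemma go_down (hd : Big d) {f : ℤ → ℝ} (hf : Nf d f) (hu : f 0 ≤ Y1 d) :
    d * Psi d f 0 ≤ 1 / 4 := by
  have h1 := hf.left_le hd (k := 0 - 1) (by norm_num)
  have hdp := hd.dpos
  have h00 := hf.mem (0 - 1)
  have hf0 := hf.mem 0
  have h1m := hf.mem (0 + 1)
  have h4 : f (0 - 1) ≤ f 0 := hf.mono (by norm_num)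
  show d * g d (f (0 - 1)) (f 0) (f (0 + 1)) ≤ 1 / 4
  generalize f (0 - 1) = x at *
  generalize f (0 + 1) = z at *
  generalize f 0 = y at *
  have ha := avg_mem h00 hf0
  have hb := avg_mem hf0 h1m
  set a := (x + y) / 2 with hadef
  set b := (y + z) / 2
  set L := Real.log d with hL
  have hL14 : 14 ≤ L := hd.log_ge
  have hda : d * a ≤ 1 / 16 + L / 4 := by
    have h2 : d * y ≤ L / 2 := by
      have := mul_le_mul_of_nonneg_left hu hdp.le
      have e : d * Y1 d = L / 2 := by rw [hL]; unfold Y1; field_simp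
      linarith
    rw [hadef]
    linarith
  have ha2 : a ≤ 1 / 2 := by
    have h3 : y ≤ 1 / 4 := hu.trans ((Y1_lt_Y2 hd).le.trans (Y2_lt hd).le)
    rw [hadef]; linarith
  have h5 : Real.exp (-(1 / 8 + L / 2)) ≤ (1 - a) ^ d := by
    calc Real.exp (-(1 / 8 + L / 2)) ≤ Real.exp (d * (-(2 * a))) := by
          apply Real.exp_le_exp.2
          nlinarith
      _ = Real.exp (-(2 * a)) ^ d := Real.exp_nat_mul _ _
      _ ≤ (1 - a) ^ d := pow_le_pow_left₀ (Real.exp_pos _).le (one_sub_ge_exp ha.1 ha2) _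
  have h6 : uu d a b ≤ Real.exp (-(Real.exp (-(1 / 8 + L / 2)) / 2)) := by
    have h7 := Real.add_one_le_exp (-(Real.exp (-(1 / 8 + L / 2)) / 2))
    have h8 : 0 ≤ (1 - b) ^ d := pow_nonneg (by linarith [hb.2]) _
    unfold uu
    linarith
  have h9 : g d x y z ≤ Real.exp (-(d * Real.exp (-(1 / 8 + L / 2)) / 2)) := by
    calc g d x y z = uu d a b ^ d := rfl
      _ ≤ Real.exp (-(Real.exp (-(1 / 8 + L / 2)) / 2)) ^ d :=
          pow_le_pow_left₀ (uu_mem ha hb).1 h6 _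
      _ = Real.exp (d * (-(Real.exp (-(1 / 8 + L / 2)) / 2))) := (Real.exp_nat_mul _ _).symm
      _ = _ := by congr 1; ring
  have h10 : L + 2 ≤ d * Real.exp (-(1 / 8 + L / 2)) / 2 := by
    have h11 : d * Real.exp (-(1 / 8 + L / 2)) = Real.exp (L / 2) * Real.exp (-(1 / 8)) := by
      have h12 : (d : ℝ) = Real.exp L := (Real.exp_log hdp).symm
      rw [h12, ← Real.exp_add, ← Real.exp_add]
      congr 1
      ring
    rw [h11]
    have h13 : 4 * L + 1 / 16 * L ≤ Real.exp (L / 2) := hd.sqrt_ge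
    have h14 : 7 / 8 ≤ Real.exp (-(1 / 8)) := by
      have := Real.add_one_le_exp (-(1 / 8 : ℝ)); linarith
    have h15 := mul_le_mul h13 h14 (by norm_num) (Real.exp_pos _).le
    nlinarith
  have h16 : g d x y z ≤ Real.exp (-(L + 2)) := h9.trans (Real.exp_le_exp.2 (by linarith))
  have h17 : d * Real.exp (-(L + 2)) = Real.exp (-2) := by
    have h12 : (d : ℝ) = Real.exp L := (Real.exp_log hdp).symm
    rw [h12, ← Real.exp_add]
    congr 1
    ring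
  have h18 : Real.exp (-2) ≤ 1 / 4 := by
    rw [Real.exp_neg, one_div]
    apply inv_anti₀ (by norm_num)
    have h1 : (2.7 : ℝ) < Real.exp 1 := lt_trans (by norm_num) Real.exp_one_gt_d9
    have h2 : Real.exp 2 = Real.exp 1 ^ 2 := by
      rw [← Real.exp_nat_mul]; norm_num
    rw [h2]
    nlinarith
  have h19 := mul_le_mul_of_nonneg_left h16 hdp.le
  linarith

end

end Pool.Agent.R975.MM
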