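import Mathlib
import Pool.Agent.R975.MM.Det

/-! Noisy min-max game on the `d`-ary tree, `d` large: the threshold. -/

set_option autoImplicit false

namespace Pool.Agent.R975.MM

open Set Filter Topology

section

variable {d : ℕ}

/-- lower bound of `(1 - a) ^ d` when the image is at most `Y2` -/
lemma pow_lower (hd : Big d) {a b : ℝ} (ha : a ∈ Icc (0 : ℝ) 1) (hb : b ∈ Icc (0 : ℝ) 1)
    (hb2 : 3 / 8 ≤ b) (h : uu d a b ^ d ≤ Y2 d) : Real.log d / (4 * d) ≤ (1 - a) ^ d := by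
  by_contra hcon
  push Not at hcon
  have hdp := hd.dpos
  have hu := uu_mem (d := d) ha hb
  set L := Real.log d with hL
  have hL14 : 14 ≤ L := hd.log_ge
  set q := 1 - uu d a b with hq
  have h58 := pow58 (d := d) hb.2 hb2
  have hep := hd.ep_le
  unfold ep at hep
  have hLd : L / d < 1 / 16 := by
    have := Y2_lt hd
    unfold Y2 at this
    rw [← hL] at this
    have e : 4 * L / d = 4 * (L / d) := by ring
    rw [e] at this
    linarith
  have hq2 : 2 * q = (1 - a) ^ d + (1 - b) ^ d := by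
    rw [hq]; unfold uu; ring
  have h58' : (5 / 8 : ℝ) ^ d ≤ 1 / 8 := by
    have := hd.pow_le_ep
    unfold ep at this
    linarith
  have hqhalf : q ≤ 1 / 2 := by
    have h1 : L / (4 * d) ≤ 1 / 16 := by
      have : L / (4 * d) = L / d / 4 := by field_simp
      rw [this]; linarith
    linarith
  have hq0 : 0 ≤ q := by linarith [hu.2]
  have h1 := one_sub_ge_exp hq0 hqhalf
  have h2 : Real.exp (-(2 * q)) ^ d ≤ uu d a b ^ d :=
    pow_le_pow_left₀ (Real.exp_pos _).le (by linarith) _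
  rw [← Real.exp_nat_mul] at h2
  have h3 : 2 * q * d ≤ L / 4 + 1 / 8 := by
    rw [hq2]
    have h4 : (1 - a) ^ d * d ≤ L / 4 := by
      have := mul_le_mul_of_nonneg_right hcon.le hdp.le
      have e : L / (4 * d) * d = L / 4 := by field_simp
      linarith
    have h5 : (1 - b) ^ d * d ≤ 1 / 8 := by
      have := mul_le_mul_of_nonneg_right h58 hdp.le
      linarith
    linarith
  have h4 : Real.exp (-(L / 4 + 1 / 8)) ≤ Y2 d := by
    refine le_trans ?_ (h2.trans h)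
    apply Real.exp_le_exp.2
    nlinarith
  have h5 : d * Real.exp (-(L / 4 + 1 / 8)) ≤ 4 * L := by
    have := mul_le_mul_of_nonneg_left h4 hdp.le
    have e : d * Y2 d = 4 * L := by rw [hL]; unfold Y2; field_simp
    linarith
  have h6 : Real.exp (L / 2) ≤ d * Real.exp (-(L / 4 + 1 / 8)) := by
    have h12 : (d : ℝ) = Real.exp L := (Real.exp_log hdp).symm
    rw [h12, ← Real.exp_add]
    apply Real.exp_le_exp.2
    linarith
  have h7 := hd.sqrt_ge
  rw [← hL] at h7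
  linarith

lemma expand_real (hd : Big d) {x y z x' y' z' : ℝ} (hx : x ∈ Icc (0 : ℝ) 1)
    (hy : y ∈ Icc (0 : ℝ) 1) (hz : z ∈ Icc (0 : ℝ) 1) (hx' : x' ∈ Icc (0 : ℝ) 1)
    (hy' : y' ∈ Icc (0 : ℝ) 1) (hz' : z' ∈ Icc (0 : ℝ) 1) (hz34 : 7 / 8 ≤ z)
    (hpos : 0 < y - y') (d1 : |x - x'| ≤ (y - y') / 4) (d3 : |z - z'| ≤ (y - y') / 4)
    (h1 : g d x y z ≤ Y2 d) (h2 : Y1 d ≤ g d x' y' z') :
    2 * (y - y') ≤ g d x y z - g d x' y' z' := by
  have hdp := hd.dpos
  set D := y - y' with hD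
  have ha := avg_mem hx hy
  have hb := avg_mem hy hz
  have ha' := avg_mem hx' hy'
  have hb' := avg_mem hy' hz'
  obtain ⟨d1l, d1r⟩ := abs_le.1 d1
  obtain ⟨d3l, d3r⟩ := abs_le.1 d3
  have hb38 : 3 / 8 ≤ (y + z) / 2 := by linarith [hy.1]
  have hlow := pow_lower hd ha hb hb38 h1
  set a := (x + y) / 2 with hadef
  set b := (y + z) / 2 with hbdef
  set a' := (x' + y') / 2 with ha'def
  set b' := (y' + z') / 2 with hb'def
  set a1 := a' + 3 / 8 * D with ha1
  have ha1a : a1 ≤ a := by rw [ha1, hadef, ha'def]; linarith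
  have hbb : b' ≤ b := by rw [hbdef, hb'def]; linarith
  have ha1m : a1 ∈ Icc (0 : ℝ) 1 := ⟨by rw [ha1]; linarith [ha'.1], ha1a.trans ha.2⟩
  have e1 : H d a1 b' ≤ H d a b := H_mono ha1m.1 hb'.1 ha.2 hb.2 ha1a hbb
  have hu' := uu_mem (d := d) ha' hb'
  have haa1 : a' ≤ a1 := by rw [ha1]; linarith
  have e2 := pow_sub_ge hu'.1 (uu_mono (d := d) (a := a') (b := b') (a' := a1) (b' := b') ha1m.2
    hb'.2 haa1 le_rfl) d
  have e3 : uu d a1 b' - uu d a' b' = ((1 - a') ^ d - (1 - a1) ^ d) / 2 := by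
    unfold uu; ring
  have e4 := pow_sub_ge (x := 1 - a') (y := 1 - a1) (by linarith [ha1m.2]) (by linarith) d
  have e5 : 1 - a' - (1 - a1) = 3 / 8 * D := by rw [ha1]; ring
  rw [e5] at e4
  have hd1 : d - 1 + 1 = d := Nat.sub_add_cancel hd.pos
  have e6 : Y1 d ≤ uu d a' b' ^ (d - 1) := by
    refine h2.trans ?_
    show uu d a' b' ^ d ≤ _
    exact pow_le_pow_of_le_one hu'.1 hu'.2 (Nat.sub_le d 1)
  have e7 : Real.log d / (4 * d) ≤ (1 - a1) ^ (d - 1) := by
    refine hlow.trans ?_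
    calc (1 - a) ^ d ≤ (1 - a) ^ (d - 1) :=
          pow_le_pow_of_le_one (by linarith [ha.2]) (by linarith [ha.1]) (Nat.sub_le d 1)
      _ ≤ (1 - a1) ^ (d - 1) := pow_le_pow_left₀ (by linarith [ha.2]) (by linarith) _
  set L := Real.log d with hL
  have hL14 : 14 ≤ L := hd.log_ge
  have e8 : L / 4 * (3 / 8 * D) ≤ (1 - a') ^ d - (1 - a1) ^ d := by
    refine le_trans ?_ e4
    apply mul_le_mul_of_nonneg_right _ (by positivity)
    calc L / 4 = d * (L / (4 * d)) := by field_simp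
      _ ≤ d * (1 - a1) ^ (d - 1) := mul_le_mul_of_nonneg_left e7 hdp.le
  have e9 : L / 2 * (L / 4 * (3 / 8 * D) / 2) ≤ uu d a1 b' ^ d - uu d a' b' ^ d := by
    refine le_trans ?_ e2
    rw [e3]
    have h10 : L / 2 ≤ d * uu d a' b' ^ (d - 1) := by
      have h11 := mul_le_mul_of_nonneg_left e6 hdp.le
      have e : d * Y1 d = L / 2 := by rw [hL]; unfold Y1; field_simp
      linarith
    apply mul_le_mul h10 (by linarith) (by positivity)
      (mul_nonneg hdp.le (pow_nonneg hu'.1 _))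
  have e10 : 2 * D ≤ L / 2 * (L / 4 * (3 / 8 * D) / 2) := by
    have : L / 2 * (L / 4 * (3 / 8 * D) / 2) = (3 / 128 * L ^ 2) * D := by ring
    rw [this]
    apply mul_le_mul_of_nonneg_right _ hpos.le
    nlinarith
  have e11 : g d x y z - g d x' y' z' = H d a b - H d a' b' := rfl
  rw [e11]
  have e12 : uu d a1 b' ^ d = H d a1 b' := rfl
  have e13 : uu d a' b' ^ d = H d a' b' := rfl
  rw [e12, e13] at e9
  linarith

/-- middle region -/
def Kr (d : ℕ) (f : ℤ → ℝ) : Prop := Y1 d ≤ f 0 ∧ f 0 ≤ Y2 d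

/-- cone -/
def Cone (f f' : ℤ → ℝ) : Prop := 0 < f 0 - f' 0 ∧ ∀ k, k ≠ 0 → |f k - f' k| ≤ (f 0 - f' 0) / 4

lemma cone_step (hd : Big d) {f f' : ℤ → ℝ} (hf : Nf d f) (hf' : Nf d f')
    (hK : Kr d (Psi d f)) (hK' : Kr d (Psi d f')) (hc : Cone f f') :
    2 * (f 0 - f' 0) ≤ Psi d f 0 - Psi d f' 0 ∧ Cone (Psi d f) (Psi d f') := by
  have h1 := expand_real hd (hf.mem (0 - 1)) (hf.mem 0) (hf.mem (0 + 1)) (hf'.mem (0 - 1))
    (hf'.mem 0) (hf'.mem (0 + 1)) (hf.right_ge hd (by norm_num)) hc.1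
    (hc.2 _ (by norm_num)) (hc.2 _ (by norm_num)) hK.2 hK'.1
  have h2 : 2 * (f 0 - f' 0) ≤ Psi d f 0 - Psi d f' 0 := h1
  refine ⟨h2, by linarith [hc.1], fun k hk => ?_⟩
  have hδ : ∀ k, |f k - f' k| ≤ f 0 - f' 0 := by
    intro k
    by_cases hk : k = 0
    · rw [hk, abs_of_pos hc.1]
    · have := hc.2 k hk
      linarith [hc.1]
  have h3 := contr_off hd hf hf' hδ hk
  have h4 := mul_le_mul_of_nonneg_right hd.ka_le hc.1.le
  linarith [hc.1]

lemma no_cone (hd : Big d) {F F' : ℕ → ℤ → ℝ} (hF : ∀ n, Nf d (F n)) (hF' : ∀ n, Nf d (F' n))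
    (hs : ∀ n, F (n + 1) = Psi d (F n)) (hs' : ∀ n, F' (n + 1) = Psi d (F' n))
    (hK : ∀ n, Kr d (F n)) (hK' : ∀ n, Kr d (F' n)) : ¬ Cone (F 0) (F' 0) := by
  intro hc
  have h : ∀ n, 2 ^ n * (F 0 0 - F' 0 0) ≤ F n 0 - F' n 0 ∧ Cone (F n) (F' n) := by
    intro n
    induction n with
    | zero => exact ⟨by simp, hc⟩
    | succ n ih =>
      have h1 := cone_step hd (hF n) (hF' n) (by rw [← hs]; exact hK (n + 1))
        (by rw [← hs']; exact hK' (n + 1)) ih.2
      rw [← hs, ← hs'] at h1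
      refine ⟨?_, h1.2⟩
      have h2 : (2 : ℝ) ^ (n + 1) * (F 0 0 - F' 0 0) = 2 * (2 ^ n * (F 0 0 - F' 0 0)) := by ring
      rw [h2]
      linarith [ih.1, h1.1]
  obtain ⟨n, hn⟩ := pow_unbounded_of_one_lt (1 / (F 0 0 - F' 0 0)) (show (1 : ℝ) < 2 by norm_num)
  have h1 := (h n).1
  have h2 := ((hF n).mem 0).2
  have h3 := ((hF' n).mem 0).1
  rw [div_lt_iff₀ hc.1] at hn
  linarith

/-! ### the orbits -/

/-- initial states -/
noncomputable def D (p : ℝ) (k : ℤ) : ℝ := if k < 0 then 0 else if k = 0 then p else 1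

noncomputable def O (d : ℕ) (p : ℝ) : ℕ → ℤ → ℝ
  | 0 => D p
  | n + 1 => Psi d (O d p n)

lemma D_nf {p : ℝ} (hp : p ∈ Icc (0 : ℝ) 1) : Nf d (D p) := by
  have he := ep_nonneg (d := d)
  refine ⟨?_, ?_, ?_, ?_⟩
  · intro k l hkl
    unfold D
    split_ifs <;> first | linarith [hp.1, hp.2] | omega
  · intro k
    unfold D
    split_ifs
    · simp
    · exact hp
    · simp
  · have : D p (-1) = 0 := by norm_num [D]
    rw [this]; exact he
  · have : D p 1 = 1 := by norm_num [D]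
    rw [this]; linarith

lemma O_nf (hd : Big d) {p : ℝ} (hp : p ∈ Icc (0 : ℝ) 1) (n : ℕ) : Nf d (O d p n) := by
  induction n with
  | zero => exact D_nf hp
  | succ n ih => exact ih.Psi hd

lemma O_mono (hd : Big d) {p q : ℝ} (hp : p ∈ Icc (0 : ℝ) 1) (hq : q ∈ Icc (0 : ℝ) 1)
    (hpq : p ≤ q) (n : ℕ) : ∀ k, O d p n k ≤ O d q n k := by
  induction n with
  | zero =>
    intro k
    show D p k ≤ D q k
    unfold D
    split_ifs <;> linarith
  | succ n ih =>
    exact Psi_mono (O_nf hd hp n).mem (O_nf hd hq n).mem ih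

lemma O_cont (d : ℕ) (n : ℕ) : ∀ k, Continuous fun p => O d p n k := by
  induction n with
  | zero =>
    intro k
    show Continuous fun p => D p k
    unfold D
    split_ifs
    · exact continuous_const
    · exact continuous_id
    · exact continuous_const
  | succ n ih =>
    intro k
    show Continuous fun p => g d (O d p n (k - 1)) (O d p n k) (O d p n (k + 1))
    unfold g H
    have h1 := ih (k - 1)
    have h2 := ih k
    have h3 := ih (k + 1)
    fun_prop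

def Up (d : ℕ) (p : ℝ) : Prop := ∃ n, Y2 d < O d p n 0

def Down (d : ℕ) (p : ℝ) : Prop := ∃ n, O d p n 0 < Y1 d

lemma up_ev (hd : Big d) {p : ℝ} (hp : p ∈ Icc (0 : ℝ) 1) (h : Up d p) :
    ∃ n0, ∀ n, n0 ≤ n → 1 / 4 ≤ O d p n 0 := by
  obtain ⟨n, hn⟩ := h
  refine ⟨n + 1, ?_⟩
  intro m hm
  obtain ⟨t, rfl⟩ := Nat.exists_eq_add_of_le hm
  induction t with
  | zero => exact go_up hd (O_nf hd hp n) hn.le
  | succ t ih => exact up_inv hd (O_nf hd hp (n + 1 + t)) (ih (by omega))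

lemma down_ev (hd : Big d) {p : ℝ} (hp : p ∈ Icc (0 : ℝ) 1) (h : Down d p) :
    ∃ n0, ∀ n, n0 ≤ n → d * O d p n 0 ≤ 1 / 4 := by
  obtain ⟨n, hn⟩ := h
  refine ⟨n + 1, ?_⟩
  intro m hm
  obtain ⟨t, rfl⟩ := Nat.exists_eq_add_of_le hm
  induction t with
  | zero => exact go_down hd (O_nf hd hp n) hn.le
  | succ t ih => exact down_inv hd (O_nf hd hp (n + 1 + t)) (ih (by omega))

lemma ka_nonneg : 0 ≤ ka d := by unfold ka; positivity

lemma one_mem : (1 : ℝ) ∈ Icc (0 : ℝ) 1 := ⟨zero_le_one, le_rfl⟩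

lemma zero_mem : (0 : ℝ) ∈ Icc (0 : ℝ) 1 := ⟨le_rfl, zero_le_one⟩

lemma one_up (hd : Big d) (n : ℕ) : 1 / 4 ≤ O d 1 n 0 := by
  induction n with
  | zero =>
    show 1 / 4 ≤ D 1 0
    norm_num [D]
  | succ n ih => exact up_inv hd (O_nf hd one_mem n) ih

lemma zero_down (hd : Big d) (n : ℕ) : d * O d 0 n 0 ≤ 1 / 4 := by
  induction n with
  | zero =>
    show d * D 0 0 ≤ 1 / 4
    norm_num [D]
  | succ n ih => exact down_inv hd (O_nf hd zero_mem n) ih

lemma mem_dist {x y : ℝ} (hx : x ∈ Icc (0 : ℝ) 1) (hy : y ∈ Icc (0 : ℝ) 1) : |x - y| ≤ 1 := by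
  rw [abs_le]; constructor <;> linarith [hx.1, hx.2, hy.1, hy.2]

lemma ka_tendsto (hd : Big d) (c : ℝ) : Tendsto (fun t : ℕ => c * ka d ^ t) atTop (𝓝 0) := by
  have := (tendsto_pow_atTop_nhds_zero_of_lt_one (ka_nonneg (d := d))
    (by linarith [hd.ka_le])).const_mul c
  rwa [mul_zero] at this

/-- In the upper region the orbit is asymptotic to the one of `p = 1`. -/
lemma up_asym (hd : Big d) {p : ℝ} (hp : p ∈ Icc (0 : ℝ) 1) (h : Up d p) (k : ℤ) :
    Tendsto (fun n => O d p n k - O d 1 n k) atTop (𝓝 0) := by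
  obtain ⟨n0, hn0⟩ := up_ev hd hp h
  have h1 : ∀ t : ℕ, ∀ k, |O d p (n0 + t) k - O d 1 (n0 + t) k| ≤ 1 * ka d ^ t := by
    intro t
    induction t with
    | zero =>
      intro k
      simpa using mem_dist ((O_nf hd hp _).mem k) ((O_nf hd one_mem _).mem k)
    | succ t ih =>
      intro k
      have := contr_up hd (O_nf hd hp (n0 + t)) (O_nf hd one_mem (n0 + t)) ih
        (hn0 _ (by omega)) (one_up hd _) k
      refine le_trans this (le_of_eq ?_)
      rw [pow_succ]; ring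
  rw [← tendsto_add_atTop_iff_nat n0]
  have h2 := ka_tendsto hd 1
  refine squeeze_zero_norm (fun t => ?_) h2
  rw [Real.norm_eq_abs, add_comm t n0]
  exact h1 t k

lemma down_asym (hd : Big d) {p : ℝ} (hp : p ∈ Icc (0 : ℝ) 1) (h : Down d p) (k : ℤ) :
    Tendsto (fun n => O d p n k - O d 0 n k) atTop (𝓝 0) := by
  obtain ⟨n0, hn0⟩ := down_ev hd hp h
  have h1 : ∀ t : ℕ, ∀ k, |O d p (n0 + t) k - O d 0 (n0 + t) k| ≤ 1 * ka d ^ t := by
    intro t
    induction t with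
    | zero =>
      intro k
      simpa using mem_dist ((O_nf hd hp _).mem k) ((O_nf hd zero_mem _).mem k)
    | succ t ih =>
      intro k
      have := contr_down hd (O_nf hd hp (n0 + t)) (O_nf hd zero_mem (n0 + t)) ih
        (hn0 _ (by omega)) (zero_down hd _) k
      refine le_trans this (le_of_eq ?_)
      rw [pow_succ]; ring
  rw [← tendsto_add_atTop_iff_nat n0]
  have h2 := ka_tendsto hd 1
  refine squeeze_zero_norm (fun t => ?_) h2
  rw [Real.norm_eq_abs, add_comm t n0]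
  exact h1 t k

lemma exists_lim_one (hd : Big d) (k : ℤ) : ∃ l, Tendsto (fun n => O d 1 n k) atTop (𝓝 l) := by
  have h1 : ∀ n : ℕ, ∀ k, |O d 1 n k - O d 1 (n + 1) k| ≤ 1 * ka d ^ n := by
    intro n
    induction n with
    | zero =>
      intro k
      simpa using mem_dist ((O_nf hd one_mem _).mem k) ((O_nf hd one_mem _).mem k)
    | succ n ih =>
      intro k
      have := contr_up hd (O_nf hd one_mem n) (O_nf hd one_mem (n + 1)) ih
        (one_up hd _) (one_up hd _) k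
      refine le_trans this (le_of_eq ?_)
      rw [pow_succ]; ring
  refine cauchySeq_tendsto_of_complete (cauchySeq_of_le_geometric (ka d) 1
    (by linarith [hd.ka_le]) fun n => ?_)
  rw [Real.dist_eq]
  exact h1 n k

/-- the limit for `p = 1` -/
noncomputable def Fi (d : ℕ) (k : ℤ) : ℝ := limUnder atTop fun n => O d 1 n k

lemma Fi_spec (hd : Big d) (k : ℤ) : Tendsto (fun n => O d 1 n k) atTop (𝓝 (Fi d k)) :=
  tendsto_nhds_limUnder (exists_lim_one hd k)

lemma O_zero_shift (d : ℕ) (n : ℕ) : ∀ k, O d 0 n k = O d 1 n (k - 1) := by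
  induction n with
  | zero =>
    intro k
    show D 0 k = D 1 (k - 1)
    unfold D
    split_ifs <;> first | rfl | (exfalso; omega)
  | succ n ih =>
    intro k
    show g d (O d 0 n (k - 1)) (O d 0 n k) (O d 0 n (k + 1)) =
      g d (O d 1 n (k - 1 - 1)) (O d 1 n (k - 1)) (O d 1 n (k - 1 + 1))
    rw [ih, ih, ih]
    congr 2
    ring

lemma up_lim (hd : Big d) {p : ℝ} (hp : p ∈ Icc (0 : ℝ) 1) (h : Up d p) (k : ℤ) :
    Tendsto (fun n => O d p n k) atTop (𝓝 (Fi d k)) := by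
  have := (up_asym hd hp h k).add (Fi_spec hd k)
  simpa using this

lemma down_lim (hd : Big d) {p : ℝ} (hp : p ∈ Icc (0 : ℝ) 1) (h : Down d p) (k : ℤ) :
    Tendsto (fun n => O d p n k) atTop (𝓝 (Fi d (k - 1))) := by
  have h1 : Tendsto (fun n => O d 0 n k) atTop (𝓝 (Fi d (k - 1))) := by
    refine (Fi_spec hd (k - 1)).congr fun n => ?_
    rw [O_zero_shift]
  have := (down_asym hd hp h k).add h1
  simpa using this

lemma nf_lim {F : ℕ → ℤ → ℝ} (hF : ∀ n, Nf d (F n)) {f : ℤ → ℝ}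
    (h : ∀ k, Tendsto (fun n => F n k) atTop (𝓝 (f k))) : Nf d f := by
  refine ⟨?_, ?_, ?_, ?_⟩
  · intro k l hkl
    exact le_of_tendsto_of_tendsto' (h k) (h l) fun n => (hF n).mono hkl
  · intro k
    exact isClosed_Icc.mem_of_tendsto (h k) (Eventually.of_forall fun n => (hF n).mem k)
  · exact le_of_tendsto' (h (-1)) fun n => (hF n).left
  · exact ge_of_tendsto' (h 1) fun n => (hF n).right

lemma psi_cont_lim {F : ℕ → ℤ → ℝ} {f : ℤ → ℝ}
    (h : ∀ k, Tendsto (fun n => F n k) atTop (𝓝 (f k))) (k : ℤ) :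
    Tendsto (fun n => Psi d (F n) k) atTop (𝓝 (Psi d f k)) := by
  have hg : Continuous fun p : ℝ × ℝ × ℝ => g d p.1 p.2.1 p.2.2 := by
    unfold g H
    fun_prop
  exact Tendsto.comp (g := fun p : ℝ × ℝ × ℝ => g d p.1 p.2.1 p.2.2)
    (f := fun n => (F n (k - 1), F n k, F n (k + 1)))
    (y := 𝓝 (f (k - 1), f k, f (k + 1))) (hg.tendsto _)
    ((h _).prodMk_nhds ((h _).prodMk_nhds (h _)))

lemma fixed_of_lim {p : ℝ} {f : ℤ → ℝ}
    (h : ∀ k, Tendsto (fun n => O d p n k) atTop (𝓝 (f k))) : Psi d f = f := by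
  funext k
  have h1 := psi_cont_lim (d := d) h k
  have h2 : Tendsto (fun n => O d p (n + 1) k) atTop (𝓝 (f k)) :=
    (h k).comp (tendsto_add_atTop_nat 1)
  exact tendsto_nhds_unique h1 h2

lemma Fi_nf (hd : Big d) : Nf d (Fi d) := nf_lim (O_nf hd one_mem) (Fi_spec hd)

lemma Fi_zero (hd : Big d) : 1 / 4 ≤ Fi d 0 := ge_of_tendsto' (Fi_spec hd 0) (one_up hd)

lemma Fi_fixed (hd : Big d) : Psi d (Fi d) = Fi d := fixed_of_lim (Fi_spec hd)

lemma Fi_neg_one (hd : Big d) : Fi d (-1) < 1 / 4 := by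
  have h1 := (Fi_nf hd).left
  have h2 := hd.ep_le
  linarith

lemma not_up_down (hd : Big d) {p : ℝ} (hp : p ∈ Icc (0 : ℝ) 1) (h1 : Up d p) (h2 : Down d p) :
    False := by
  have e := tendsto_nhds_unique (up_lim hd hp h1 0) (down_lim hd hp h2 0)
  have h3 := Fi_zero hd
  have h4 := Fi_neg_one hd
  rw [e] at h3
  rw [show (0 : ℤ) - 1 = -1 by norm_num] at h3
  linarith

lemma mid_unique (hd : Big d) {p q : ℝ} (hp : p ∈ Icc (0 : ℝ) 1) (hq : q ∈ Icc (0 : ℝ) 1)
    (hpq : p < q) (h1 : ∀ n, Kr d (O d p n)) (h2 : ∀ n, Kr d (O d q n)) : False := by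
  refine no_cone hd (F := O d q) (F' := O d p) (O_nf hd hq) (O_nf hd hp) (fun _ => rfl)
    (fun _ => rfl) h2 h1 ⟨?_, fun k hk => ?_⟩
  · show 0 < D q 0 - D p 0
    simp only [D, lt_irrefl, if_false, if_true]
    linarith
  · show |D q k - D p k| ≤ (D q 0 - D p 0) / 4
    have : D q k = D p k := by
      unfold D
      split_ifs <;> first | rfl | (exfalso; omega)
    rw [this, sub_self, abs_zero]
    simp only [D, lt_irrefl, if_false, if_true]
    linarith

lemma mid_of_not {p : ℝ} (h1 : ¬ Up d p) (h2 : ¬ Down d p) (n : ℕ) : Kr d (O d p n) := by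
  constructor
  · by_contra h
    exact h2 ⟨n, not_le.1 h⟩
  · by_contra h
    exact h1 ⟨n, not_le.1 h⟩

lemma down_zero (hd : Big d) : Down d 0 := by
  refine ⟨0, ?_⟩
  show D 0 0 < Y1 d
  have h := Y1_gt hd
  have h2 := hd.dpos
  have : D 0 0 = 0 := by norm_num [D]
  rw [this]
  by_contra hcon
  push Not at hcon
  nlinarith

lemma up_one (hd : Big d) : Up d 1 := by
  refine ⟨0, ?_⟩
  show Y2 d < D 1 0
  have h := Y2_lt hd
  have : D 1 0 = 1 := by norm_num [D]
  rw [this]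
  linarith

/-- **Existence of the threshold.** -/
theorem exists_pc (hd : Big d) : ∃ pc : ℝ, 0 < pc ∧ pc < 1 ∧ (∀ n, Kr d (O d pc n)) ∧
    (∀ p ∈ Icc (0 : ℝ) 1, p < pc → Down d p) ∧ (∀ p ∈ Icc (0 : ℝ) 1, pc < p → Up d p) := by
  set S : Set ℝ := {p | p ∈ Icc (0 : ℝ) 1 ∧ Down d p} with hS
  have h0S : (0 : ℝ) ∈ S := ⟨zero_mem, down_zero hd⟩
  have hbdd : BddAbove S := ⟨1, fun p hp => hp.1.2⟩
  set pc := sSup S with hpc
  have hpc0 : 0 ≤ pc := le_csSup hbdd h0S
  have hpc1 : pc ≤ 1 := csSup_le ⟨0, h0S⟩ fun p hp => hp.1.2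
  have hpcm : pc ∈ Icc (0 : ℝ) 1 := ⟨hpc0, hpc1⟩
  have hdown : ∀ p ∈ Icc (0 : ℝ) 1, p < pc → Down d p := by
    intro p hp hlt
    obtain ⟨q, hq, hpq⟩ := exists_lt_of_lt_csSup ⟨0, h0S⟩ hlt
    obtain ⟨n, hn⟩ := hq.2
    exact ⟨n, (O_mono hd hp hq.1 hpq.le n 0).trans_lt hn⟩
  have hnd : ¬ Down d pc := by
    rintro ⟨n, hn⟩
    have hne : pc ≠ 1 := by
      intro h1
      rw [h1] at hn
      exact not_up_down hd one_mem (up_one hd) ⟨n, hn⟩
    have hlt : pc < 1 := lt_of_le_of_ne hpc1 hne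
    have h2 : ∀ᶠ p in 𝓝 pc, O d p n 0 < Y1 d :=
      ((O_cont d n 0).tendsto pc).eventually (eventually_lt_nhds hn)
    have h3 : ∃ᶠ p in 𝓝 pc, pc < p ∧ p < 1 := by
      have h4 : ∀ᶠ p in 𝓝[>] pc, p < 1 := by
        filter_upwards [Ioo_mem_nhdsGT hlt] with p hp using hp.2
      have h5 : ∀ᶠ p in 𝓝[>] pc, pc < p := self_mem_nhdsWithin
      exact ((h5.and h4).frequently).filter_mono nhdsWithin_le_nhds
    obtain ⟨p, ⟨h6, h7⟩, h8⟩ := (h3.and_eventually h2).exists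
    have : p ∈ S := ⟨⟨hpc0.trans h6.le, h7.le⟩, n, h8⟩
    exact absurd (le_csSup hbdd this) (not_le.2 h6)
  have hnu : ¬ Up d pc := by
    rintro ⟨n, hn⟩
    have hne : pc ≠ 0 := by
      intro h1
      rw [h1] at hn
      exact not_up_down hd zero_mem ⟨n, hn⟩ (down_zero hd)
    have hlt : 0 < pc := lt_of_le_of_ne hpc0 (Ne.symm hne)
    have h2 : ∀ᶠ p in 𝓝 pc, Y2 d < O d p n 0 :=
      ((O_cont d n 0).tendsto pc).eventually (eventually_gt_nhds hn)
    have h3 : ∃ᶠ p in 𝓝 pc, p < pc ∧ 0 < p := by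
      have h4 : ∀ᶠ p in 𝓝[<] pc, 0 < p := by
        filter_upwards [Ioo_mem_nhdsLT hlt] with p hp using hp.1
      have h5 : ∀ᶠ p in 𝓝[<] pc, p < pc := self_mem_nhdsWithin
      exact ((h5.and h4).frequently).filter_mono nhdsWithin_le_nhds
    obtain ⟨p, ⟨h6, h7⟩, h8⟩ := (h3.and_eventually h2).exists
    have hp : p ∈ Icc (0 : ℝ) 1 := ⟨h7.le, h6.le.trans hpc1⟩
    exact not_up_down hd hp ⟨n, h8⟩ (hdown p hp h6)
  have hmid := mid_of_not hnu hnd
  refine ⟨pc, ?_, ?_, hmid, hdown, ?_⟩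
  · refine lt_of_le_of_ne hpc0 fun h => hnd ?_
    rw [← h]; exact down_zero hd
  · refine lt_of_le_of_ne hpc1 fun h => hnu ?_
    rw [h]; exact up_one hd
  · intro p hp hlt
    by_contra hnup
    have hndp : ¬ Down d p := fun h => absurd (le_csSup hbdd ⟨hp, h⟩) (not_le.2 hlt)
    exact mid_unique hd hpcm hp hlt hmid (mid_of_not hnup hndp)

/-- Convergence of an orbit which stays in the middle region, uniformly. -/
theorem mid_lim (hd : Big d) {p : ℝ} (hp : p ∈ Icc (0 : ℝ) 1) (h : ∀ n, Kr d (O d p n)) :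
    ∃ f : ℤ → ℝ, (∀ n k, |O d p n k - f k| ≤ 8 * (1 / 2) ^ n) ∧ Kr d f ∧ Nf d f ∧
      Psi d f = f := by
  have hstep : ∀ n : ℕ, ∀ k, |O d p n k - O d p (n + 1) k| ≤ 4 * (1 / 2) ^ n := by
    have key : ∀ n : ℕ, (∀ k, k ≠ 0 → |O d p n k - O d p (n + 1) k| ≤ (1 / 2) ^ n) →
        ∀ k, |O d p n k - O d p (n + 1) k| ≤ 4 * (1 / 2) ^ n := by
      intro n hn k
      have hpow : (0 : ℝ) < (1 / 2) ^ n := by positivity
      by_cases hk : k = 0
      · subst hk
        by_contra hcon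
        push Not at hcon
        rcases lt_or_ge 0 (O d p n 0 - O d p (n + 1) 0) with h1 | h1
        · rw [abs_of_pos h1] at hcon
          refine no_cone hd (F := fun m => O d p (n + m)) (F' := fun m => O d p (n + 1 + m))
            (fun m => O_nf hd hp _) (fun m => O_nf hd hp _) (fun m => rfl) (fun m => rfl)
            (fun m => h _) (fun m => h _) ⟨h1, fun k hk => ?_⟩
          have := hn k hk
          show |O d p (n + 0) k - O d p (n + 1 + 0) k| ≤ (O d p (n + 0) 0 - O d p (n + 1 + 0) 0) / 4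
          simp only [add_zero]
          linarith
        · rw [abs_of_nonpos h1] at hcon
          refine no_cone hd (F' := fun m => O d p (n + m)) (F := fun m => O d p (n + 1 + m))
            (fun m => O_nf hd hp _) (fun m => O_nf hd hp _) (fun m => rfl) (fun m => rfl)
            (fun m => h _) (fun m => h _) ⟨?_, fun k hk => ?_⟩
          · show 0 < O d p (n + 1 + 0) 0 - O d p (n + 0) 0
            simp only [add_zero]
            linarith
          · have := hn k hk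
            show |O d p (n + 1 + 0) k - O d p (n + 0) k| ≤
              (O d p (n + 1 + 0) 0 - O d p (n + 0) 0) / 4
            simp only [add_zero]
            rw [abs_sub_comm]
            linarith
      · exact (hn k hk).trans (by linarith)
    have h0 : ∀ n : ℕ, ∀ k, k ≠ 0 → |O d p n k - O d p (n + 1) k| ≤ (1 / 2) ^ n := by
      intro n
      induction n with
      | zero =>
        intro k _
        simpa using mem_dist ((O_nf hd hp _).mem k) ((O_nf hd hp _).mem k)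
      | succ n ih =>
        intro k hk
        have h1 := contr_off hd (O_nf hd hp n) (O_nf hd hp (n + 1)) (key n ih) hk
        have h2 : ka d * (4 * (1 / 2) ^ n) ≤ 1 / 8 * (4 * (1 / 2) ^ n) :=
          mul_le_mul_of_nonneg_right hd.ka_le (by positivity)
        refine h1.trans (h2.trans (le_of_eq ?_))
        rw [pow_succ]; ring
    exact fun n => key n (h0 n)
  have hlim : ∀ k, ∃ l, Tendsto (fun n => O d p n k) atTop (𝓝 l) := fun k =>
    cauchySeq_tendsto_of_complete (cauchySeq_of_le_geometric (1 / 2) 4 (by norm_num) fun n => by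
      rw [Real.dist_eq]; exact hstep n k)
  choose f hf using hlim
  refine ⟨f, ?_, ⟨?_, ?_⟩, nf_lim (O_nf hd hp) hf, fixed_of_lim hf⟩
  · intro n k
    have h1 := dist_le_of_le_geometric_of_tendsto (1 / 2) 4 (by norm_num)
      (fun n => by rw [Real.dist_eq]; exact hstep n k) (hf k) n
    rw [Real.dist_eq] at h1
    refine h1.trans (le_of_eq ?_)
    ring
  · exact ge_of_tendsto' (hf 0) fun n => (h n).1
  · exact le_of_tendsto' (hf 0) fun n => (h n).2

/-! ### tails of fixed points -/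

lemma d_pow_pred (hd : Big d) {m : ℝ} (hm : 0 ≤ m) (hm2 : m ≤ 7 / 8) :
    d * m ^ (d - 1) ≤ 1 / 8 := by
  have h1 := hd.ka_le
  unfold ka at h1
  have h2 := hd.posR
  have h3 : m ^ (d - 1) ≤ (7 / 8) ^ (d - 1) := pow_le_pow_left₀ hm hm2 _
  have h4 : (0 : ℝ) ≤ (7 / 8) ^ (d - 1) := by positivity
  have h5 : 0 ≤ m ^ (d - 1) := pow_nonneg hm _
  calc d * m ^ (d - 1) ≤ (d * d) * (7 / 8 : ℝ) ^ (d - 1) := by
        apply mul_le_mul _ h3 h5 (by positivity)
        nlinarith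
    _ = (d : ℝ) ^ 2 * (7 / 8) ^ (d - 1) := by ring
    _ ≤ 1 / 8 := h1

lemma tail_left_le (hd : Big d) {f : ℤ → ℝ} (hf : Nf d f) (hfix : Psi d f = f) (j : ℕ) :
    f (-1 - j) ≤ (1 / 8) ^ j := by
  have hd1 : d - 1 + 1 = d := Nat.sub_add_cancel hd.pos
  induction j with
  | zero => simpa using (hf.mem (-1)).2
  | succ j ih =>
    have e : f (-1 - ((j + 1 : ℕ) : ℤ)) = Psi d f (-1 - ((j + 1 : ℕ) : ℤ)) := by rw [hfix]
    rw [e]
    set k : ℤ := -1 - ((j + 1 : ℕ) : ℤ) with hk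
    have hk1 : k + 1 = -1 - (j : ℤ) := by rw [hk]; push_cast; ring
    have htm := hf.mem (k + 1)
    have hdt : d * f (k + 1) ≤ 1 / 8 := hf.left_le hd (by rw [hk1]; omega)
    have a1 : f (k - 1) ≤ f (k + 1) := hf.mono (by omega)
    have a2 : f k ≤ f (k + 1) := hf.mono (by omega)
    have h2 : Psi d f k ≤ H d (f (k + 1)) (f (k + 1)) := by
      refine H_mono ?_ ?_ htm.2 htm.2 ?_ ?_
      · exact (avg_mem (hf.mem _) (hf.mem _)).1
      · exact (avg_mem (hf.mem _) (hf.mem _)).1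
      · linarith
      · linarith
    refine h2.trans ?_
    rw [← hk1] at ih
    generalize f (k + 1) = t at *
    have h3 : uu d t t ≤ d * t := by
      have := one_sub_pow_ge htm.1 htm.2 d
      unfold uu
      linarith
    have hut := uu_mem (d := d) htm htm
    have h58 : uu d t t ≤ 7 / 8 := by linarith
    have h6 := d_pow_pred hd hut.1 h58
    calc H d t t = uu d t t ^ (d - 1 + 1) := by rw [hd1]; rfl
      _ = uu d t t ^ (d - 1) * uu d t t := pow_succ _ _
      _ ≤ uu d t t ^ (d - 1) * (d * t) := mul_le_mul_of_nonneg_left h3 (pow_nonneg hut.1 _)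
      _ = (d * uu d t t ^ (d - 1)) * t := by ring
      _ ≤ 1 / 8 * t := mul_le_mul_of_nonneg_right h6 htm.1
      _ ≤ 1 / 8 * (1 / 8) ^ j := mul_le_mul_of_nonneg_left ih (by norm_num)
      _ = (1 / 8) ^ (j + 1) := by rw [pow_succ]; ring

lemma tail_right_le (hd : Big d) {f : ℤ → ℝ} (hf : Nf d f) (hfix : Psi d f = f) (j : ℕ) :
    1 - f (1 + j) ≤ (1 / 8) ^ j := by
  have hd1 : d - 1 + 1 = d := Nat.sub_add_cancel hd.pos
  induction j with
  | zero => simpa using (hf.mem 1).1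
  | succ j ih =>
    have e : f (1 + ((j + 1 : ℕ) : ℤ)) = Psi d f (1 + ((j + 1 : ℕ) : ℤ)) := by rw [hfix]
    rw [e]
    set k : ℤ := 1 + ((j + 1 : ℕ) : ℤ) with hk
    have hk1 : k - 1 = 1 + (j : ℤ) := by rw [hk]; push_cast; ring
    have htm := hf.mem (k - 1)
    have hdt : 7 / 8 ≤ f (k - 1) := hf.right_ge hd (by rw [hk1]; omega)
    have a1 : f (k - 1) ≤ f (k + 1) := hf.mono (by omega)
    have a2 : f (k - 1) ≤ f k := hf.mono (by omega)
    have h2 := g_large (d := d) (m := 1 - f (k - 1)) (hf.mem (k - 1)) (hf.mem k)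
      (hf.mem (k + 1)) (by linarith) (by linarith)
    have h2' : 1 - Psi d f k ≤ d * (1 - f (k - 1)) ^ d := by
      have : Psi d f k = g d (f (k - 1)) (f k) (f (k + 1)) := rfl
      rw [this]; linarith
    refine h2'.trans ?_
    rw [← hk1] at ih
    generalize f (k - 1) = t at *
    have hm0 : 0 ≤ 1 - t := by linarith [htm.2]
    have hm1 : 1 - t ≤ 7 / 8 := by linarith
    have h6 := d_pow_pred hd hm0 hm1
    calc d * (1 - t) ^ d = (d * (1 - t) ^ (d - 1)) * (1 - t) := by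
          conv_lhs => rw [← hd1]
          rw [pow_succ]
          simp only [hd1]
          ring
      _ ≤ 1 / 8 * (1 - t) := mul_le_mul_of_nonneg_right h6 hm0
      _ ≤ 1 / 8 * (1 / 8) ^ j := mul_le_mul_of_nonneg_left ih (by norm_num)
      _ = (1 / 8) ^ (j + 1) := by rw [pow_succ]; ring

lemma tail_left (hd : Big d) {f : ℤ → ℝ} (hf : Nf d f) (hfix : Psi d f = f) :
    Tendsto f atBot (𝓝 0) := by
  refine tendsto_order.2 ⟨fun a ha => ?_, fun a ha => ?_⟩
  · exact Eventually.of_forall fun k => lt_of_lt_of_le ha (hf.mem k).1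
  · obtain ⟨n, hn⟩ := exists_pow_lt_of_lt_one ha (show (1 / 8 : ℝ) < 1 by norm_num)
    filter_upwards [eventually_le_atBot (-1 - (n : ℤ))] with k hk
    exact lt_of_le_of_lt ((hf.mono hk).trans (tail_left_le hd hf hfix n)) hn

lemma tail_right (hd : Big d) {f : ℤ → ℝ} (hf : Nf d f) (hfix : Psi d f = f) :
    Tendsto f atTop (𝓝 1) := by
  refine tendsto_order.2 ⟨fun a ha => ?_, fun a ha => ?_⟩
  · obtain ⟨n, hn⟩ := exists_pow_lt_of_lt_one (show 0 < 1 - a by linarith)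
      (show (1 / 8 : ℝ) < 1 by norm_num)
    filter_upwards [eventually_ge_atTop (1 + (n : ℤ))] with k hk
    have h1 := tail_right_le hd hf hfix n
    have h2 := hf.mono hk
    generalize f (1 + n) = z at *
    linarith
  · exact Eventually.of_forall fun k => lt_of_le_of_lt (hf.mem k).2 ha

end

lemma exists_big : ∃ d0 : ℕ, ∀ d, d0 ≤ d → Big d := by
  have h1 : Tendsto (fun d : ℕ => 8 / 7 * ((d : ℝ) ^ 2 * (7 / 8) ^ d)) atTop (𝓝 (8 / 7 * 0)) :=
    (tendsto_pow_const_mul_const_pow_of_abs_lt_one 2 (by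
      rw [abs_of_pos] <;> norm_num)).const_mul _
  rw [mul_zero] at h1
  have h2 : ∀ᶠ d : ℕ in atTop, 8 / 7 * ((d : ℝ) ^ 2 * (7 / 8) ^ d) < 1 / 8 :=
    h1.eventually (eventually_lt_nhds (by norm_num))
  have h3 : ∀ᶠ d : ℕ in atTop, 14 ≤ Real.log d :=
    (Real.tendsto_log_atTop.comp tendsto_natCast_atTop_atTop).eventually (eventually_ge_atTop 14)
  obtain ⟨d0, hd0⟩ := eventually_atTop.1 ((h2.and h3).and (eventually_ge_atTop 1))
  refine ⟨d0, fun d hd => ?_⟩
  obtain ⟨⟨h4, h5⟩, h6⟩ := hd0 d hd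
  refine ⟨?_, h5⟩
  unfold ka
  have hd1 : d - 1 + 1 = d := Nat.sub_add_cancel h6
  have e : ((7 : ℝ) / 8) ^ d = (7 / 8) ^ (d - 1) * (7 / 8) := by
    rw [← pow_succ, hd1]
  rw [e] at h4
  linarith

end Pool.Agent.R975.MM
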