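import Mathlib
import Pool.Agent.R975.MM.Trich

/-! Noisy min-max game on the `d`-ary tree: the law of the root value. -/

set_option autoImplicit false

namespace Pool.Agent.R975.MM

open Set Filter Topology MeasureTheory ProbabilityTheory

/-- The law of a cookie: uniform on `{-1, 1}`. -/
noncomputable def cookie : Measure ℤ :=
  (2⁻¹ : ENNReal) • Measure.dirac 1 + (2⁻¹ : ENNReal) • Measure.dirac (-1)

/-- The law of a boundary value: `0` with probability `p` and `2` with probability `1 - p`. -/
noncomputable def bdry (p : unitInterval) : Measure ℤ :=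
  ENNReal.ofReal (p : ℝ) • Measure.dirac 0 + ENNReal.ofReal (1 - (p : ℝ)) • Measure.dirac 2

instance : IsProbabilityMeasure cookie := ⟨by
  simp [cookie, ENNReal.inv_two_add_inv_two]⟩

instance (p : unitInterval) : IsProbabilityMeasure (bdry p) := ⟨by
  simp only [bdry, Measure.coe_add, Measure.coe_smul, Pi.add_apply, Pi.smul_apply,
    measure_univ, smul_eq_mul, mul_one]
  rw [← ENNReal.ofReal_add p.2.1 (by linarith [p.2.2])]
  simp⟩

/-- The index set of all the random variables: `inl v` is the cookie on the edge between `v` and its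
parent, `inr v` the boundary value of the vertex `v`.  The vertices of the `d`-ary tree are the
lists of elements of `Fin d`; the children of `v` are the lists `c :: v`; the root is `[]`. -/
abbrev Ix (d : ℕ) := List (Fin d) ⊕ List (Fin d)

/-- The law of the coordinates. -/
noncomputable def coord (d : ℕ) (p : unitInterval) : Ix d → Measure ℤ :=
  Sum.elim (fun _ => cookie) (fun _ => bdry p)

instance (d : ℕ) (p : unitInterval) (i : Ix d) : IsProbabilityMeasure (coord d p i) := by
  cases i
  · show IsProbabilityMeasure cookie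
    infer_instance
  · show IsProbabilityMeasure (bdry p)
    infer_instance

/-- The product measure: all the cookies and all the boundary values are independent. -/
noncomputable def gm (d : ℕ) (p : unitInterval) : Measure (Ix d → ℤ) :=
  Measure.infinitePi (coord d p)

instance (d : ℕ) (p : unitInterval) : IsProbabilityMeasure (gm d p) := by
  unfold gm
  infer_instance

/-- Value of the vertex `v` when `m` levels remain below it. -/
noncomputable def val {d : ℕ} (x : Ix d → ℤ) : ℕ → List (Fin d) → ℤ
  | 0, v => x (Sum.inr v)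
  | m + 1, v =>
    if Even v.length then ⨆ c : Fin d, (x (Sum.inl (c :: v)) + val x m (c :: v))
    else ⨅ c : Fin d, (x (Sum.inl (c :: v)) + val x m (c :: v))

section

variable {d : ℕ}

/-- the finite set of coordinates on which `val x m v` depends -/
def Tr (d : ℕ) : ℕ → List (Fin d) → Finset (Ix d)
  | 0, v => {Sum.inr v}
  | m + 1, v => Finset.univ.biUnion fun c : Fin d =>
      insert (Sum.inl (c :: v)) (Tr d m (c :: v))

lemma mem_Tr (m : ℕ) : ∀ (v : List (Fin d)) (u : Ix d), u ∈ Tr d m v →
    (∃ w, u = Sum.inr (w ++ v)) ∨ (∃ w, w ≠ [] ∧ u = Sum.inl (w ++ v)) := by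
  induction m with
  | zero =>
    intro v u hu
    simp only [Tr, Finset.mem_singleton] at hu
    exact Or.inl ⟨[], by simpa using hu⟩
  | succ m ih =>
    intro v u hu
    simp only [Tr, Finset.mem_biUnion, Finset.mem_univ, true_and, Finset.mem_insert] at hu
    obtain ⟨c, h | h⟩ := hu
    · exact Or.inr ⟨[c], by simp, by simp [h]⟩
    · rcases ih _ _ h with ⟨w, rfl⟩ | ⟨w, hw, rfl⟩
      · exact Or.inl ⟨w ++ [c], by simp⟩
      · exact Or.inr ⟨w ++ [c], by simp, by simp⟩

lemma self_notMem (m : ℕ) (v : List (Fin d)) : (Sum.inl v : Ix d) ∉ Tr d m v := by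
  intro h
  rcases mem_Tr m v _ h with ⟨w, hw⟩ | ⟨w, hw, hv⟩
  · simp at hw
  · have := congrArg List.length (Sum.inl.inj hv)
    simp at this
    exact hw this

/-- the coordinates of the branch through the child `c` -/
def Br (d m : ℕ) (v : List (Fin d)) (c : Fin d) : Finset (Ix d) :=
  insert (Sum.inl (c :: v)) (Tr d m (c :: v))

lemma mem_Br (m : ℕ) (v : List (Fin d)) (c : Fin d) (u : Ix d) (h : u ∈ Br d m v c) :
    (∃ w, u = Sum.inr (w ++ c :: v)) ∨ (∃ w, u = Sum.inl (w ++ c :: v)) := by
  rcases Finset.mem_insert.1 h with rfl | h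
  · exact Or.inr ⟨[], rfl⟩
  · rcases mem_Tr m _ u h with ⟨w, hw⟩ | ⟨w, -, hw⟩
    · exact Or.inl ⟨w, hw⟩
    · exact Or.inr ⟨w, hw⟩

lemma Br_disj (m : ℕ) (v : List (Fin d)) {c c' : Fin d} (hc : c ≠ c') :
    Disjoint (Br d m v c) (Br d m v c') := by
  rw [Finset.disjoint_left]
  intro u h1 h2
  have key : ∀ w w' : List (Fin d), w ++ c :: v = w' ++ c' :: v → False := by
    intro w w' h
    have := (List.append_inj' h (by simp)).2
    simp only [List.cons.injEq, and_true] at this
    exact hc this
  rcases mem_Br m v c u h1 with ⟨w, hw⟩ | ⟨w, hw⟩ <;>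
    rcases mem_Br m v c' u h2 with ⟨w', hw'⟩ | ⟨w', hw'⟩
  · rw [hw] at hw'; exact key _ _ (Sum.inr.inj hw')
  · rw [hw] at hw'; simp at hw'
  · rw [hw] at hw'; simp at hw'
  · rw [hw] at hw'; exact key _ _ (Sum.inl.inj hw')

lemma val_congr (x x' : Ix d → ℤ) (m : ℕ) : ∀ v, (∀ u ∈ Tr d m v, x u = x' u) →
    val x m v = val x' m v := by
  induction m with
  | zero => intro v hv; exact hv _ (Finset.mem_singleton_self _)
  | succ m ih =>
    intro v hv
    have h1 : ∀ c : Fin d, x (Sum.inl (c :: v)) + val x m (c :: v) =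
        x' (Sum.inl (c :: v)) + val x' m (c :: v) := by
      intro c
      rw [ih (c :: v) fun u hu => hv u ?_, hv (Sum.inl (c :: v)) ?_]
      · simp only [Tr, Finset.mem_biUnion, Finset.mem_univ, true_and, Finset.mem_insert]
        exact ⟨c, Or.inl rfl⟩
      · simp only [Tr, Finset.mem_biUnion, Finset.mem_univ, true_and, Finset.mem_insert]
        exact ⟨c, Or.inr hu⟩
    simp only [val, h1]

/-- dependence of an event on a finite set of coordinates -/
def DepS (S : Finset (Ix d)) (A : Set (Ix d → ℤ)) : Prop :=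
  ∀ x x', (∀ u ∈ S, x u = x' u) → x ∈ A → x' ∈ A

open Classical in
/-- extension by zero -/
noncomputable def ext0 (S : Finset (Ix d)) (y : S → ℤ) : Ix d → ℤ :=
  fun u => if h : u ∈ S then y ⟨u, h⟩ else 0

lemma depS_eq {S : Finset (Ix d)} {A : Set (Ix d → ℤ)} (hA : DepS S A) :
    A = (fun (x : Ix d → ℤ) (i : S) => x i) ⁻¹' {y | ext0 S y ∈ A} := by
  ext x
  have h1 : ∀ u ∈ S, x u = ext0 S (fun i : S => x i) u := by
    intro u hu
    simp [ext0, hu]
  exact ⟨fun h => hA _ _ h1 h, fun h => hA _ _ (fun u hu => (h1 u hu).symm) h⟩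

lemma restr_meas (S : Finset (Ix d)) : Measurable fun (x : Ix d → ℤ) (i : S) => x i :=
  measurable_pi_lambda _ fun i => measurable_pi_apply _

lemma depS_meas {S : Finset (Ix d)} {A : Set (Ix d → ℤ)} (hA : DepS S A) : MeasurableSet A := by
  rw [depS_eq hA]
  exact restr_meas S (MeasurableSet.of_discrete)

lemma depS_inter {S T : Finset (Ix d)} {A B : Set (Ix d → ℤ)} (hA : DepS S A) (hB : DepS T B) :
    DepS (S ∪ T) (A ∩ B) := fun x x' h hx =>
  ⟨hA x x' (fun u hu => h u (Finset.mem_union_left _ hu)) hx.1,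
   hB x x' (fun u hu => h u (Finset.mem_union_right _ hu)) hx.2⟩

lemma depS_compl {S : Finset (Ix d)} {A : Set (Ix d → ℤ)} (hA : DepS S A) : DepS S Aᶜ :=
  fun x x' h hx hx' => hx (hA x' x (fun u hu => (h u hu).symm) hx')

lemma depS_prod {S T : Finset (Ix d)} (hST : Disjoint S T) {A B : Set (Ix d → ℤ)}
    (hA : DepS S A) (hB : DepS T B) (p : unitInterval) :
    (gm d p).real (A ∩ B) = (gm d p).real A * (gm d p).real B := by
  have hind : iIndepFun (fun (i : Ix d) (x : Ix d → ℤ) => x i) (gm d p) :=
    iIndepFun_infinitePi (P := coord d p) (X := fun _ => id) fun _ => measurable_id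
  have h := hind.indepFun_finset S T hST fun i => measurable_pi_apply _
  have h2 := h.measure_inter_preimage_eq_mul {y | ext0 S y ∈ A} {y | ext0 T y ∈ B}
    MeasurableSet.of_discrete MeasurableSet.of_discrete
  rw [← depS_eq hA, ← depS_eq hB] at h2
  have h3 := congrArg ENNReal.toReal h2
  rw [ENNReal.toReal_mul] at h3
  exact h3

lemma depS_finset {T : Finset (Fin d)} {S : Fin d → Finset (Ix d)} {A : Fin d → Set (Ix d → ℤ)}
    (hA : ∀ c, DepS (S c) (A c)) : DepS (T.biUnion S) (⋂ c ∈ T, A c) := by
  intro x x' h hx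
  simp only [mem_iInter] at hx ⊢
  intro c hc
  exact hA c x x' (fun u hu => h u (Finset.mem_biUnion.2 ⟨c, hc, hu⟩)) (hx c hc)

lemma prod_finset {S : Fin d → Finset (Ix d)} (hS : ∀ c c', c ≠ c' → Disjoint (S c) (S c'))
    {A : Fin d → Set (Ix d → ℤ)} (hA : ∀ c, DepS (S c) (A c)) (p : unitInterval)
    (T : Finset (Fin d)) : (gm d p).real (⋂ c ∈ T, A c) = ∏ c ∈ T, (gm d p).real (A c) := by
  induction T using Finset.induction_on with
  | empty => simp
  | insert c T hc ih =>
    rw [Finset.prod_insert hc, ← ih, Finset.set_biInter_insert]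
    refine depS_prod ?_ (hA c) (depS_finset hA) p
    rw [Finset.disjoint_biUnion_right]
    intro c' hc'
    exact hS c c' fun h => hc (h ▸ hc')

/-- distribution function of the value of `v` -/
noncomputable def cd (p : unitInterval) (m : ℕ) (v : List (Fin d)) (i : ℤ) : ℝ :=
  (gm d p).real {x | val x m v ≤ i}

lemma depS_val (m : ℕ) (v : List (Fin d)) (i : ℤ) : DepS (Tr d m v) {x | val x m v ≤ i} := by
  intro x x' h hx
  have := val_congr x x' m v h
  simp only [Set.mem_setOf_eq] at hx ⊢
  rw [← this]; exact hx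

lemma depS_coord (u : Ix d) (i : ℤ) : DepS {u} {x | x u = i} := by
  intro x x' h hx
  have := h u (Finset.mem_singleton_self u)
  simp only [Set.mem_setOf_eq] at hx ⊢
  rw [← this]; exact hx

lemma depS_Y (m : ℕ) (v : List (Fin d)) (c : Fin d) (i : ℤ) :
    DepS (Br d m v c) {x | x (Sum.inl (c :: v)) + val x m (c :: v) ≤ i} := by
  intro x x' h hx
  have h1 := h _ (Finset.mem_insert_self _ _)
  have h2 := val_congr x x' m (c :: v) fun u hu => h u (Finset.mem_insert_of_mem hu)
  simp only [Set.mem_setOf_eq] at hx ⊢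
  rw [← h1, ← h2]; exact hx

lemma coord_prob (p : unitInterval) (u : Ix d) (s : Set ℤ) :
    (gm d p).real {x | x u ∈ s} = (coord d p u).real s := by
  have h := Measure.infinitePi_map_eval (coord d p) u
  have h2 : ((gm d p).map (Function.eval u)).real s = (coord d p u).real s := by
    unfold gm
    rw [h]
  rw [map_measureReal_apply (measurable_pi_apply u) MeasurableSet.of_discrete] at h2
  exact h2

lemma cookie_prob (p : unitInterval) (v : List (Fin d)) :
    (gm d p).real {x | x (Sum.inl v) = 1} = 1 / 2 ∧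
    (gm d p).real {x | x (Sum.inl v) = -1} = 1 / 2 := by
  have h1 := coord_prob p (Sum.inl v : Ix d) {1}
  have h2 := coord_prob p (Sum.inl v : Ix d) {-1}
  simp only [mem_singleton_iff] at h1 h2
  rw [h1, h2]
  show cookie.real {1} = 1 / 2 ∧ cookie.real {-1} = 1 / 2
  constructor
  · simp [cookie, Measure.real]
  · simp [cookie, Measure.real]

lemma bdry_prob (p : unitInterval) (v : List (Fin d)) (i : ℤ) :
    (gm d p).real {x | x (Sum.inr v) ≤ i} = if i < 0 then 0 else if i < 2 then (p : ℝ) else 1 := by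
  have h1 := coord_prob p (Sum.inr v : Ix d) (Iic i)
  simp only [mem_Iic] at h1
  rw [h1]
  show (bdry p).real (Iic i) = _
  have hp0 := p.2.1
  have hp1 := p.2.2
  by_cases hi : i < 0
  · rw [if_pos hi]
    have h3 : (0 : ℤ) ∉ Iic i := by simp; exact hi
    have h4 : (2 : ℤ) ∉ Iic i := by simp; omega
    simp [bdry, Measure.real, indicator_of_notMem h3, indicator_of_notMem h4]
  · rw [if_neg hi]
    have h3 : (0 : ℤ) ∈ Iic i := by simp; omega
    by_cases hi2 : i < 2
    · rw [if_pos hi2]
      have h4 : (2 : ℤ) ∉ Iic i := by rw [mem_Iic]; omega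
      simp [bdry, Measure.real, indicator_of_mem h3, indicator_of_notMem h4, hp0]
    · rw [if_neg hi2]
      have h4 : (2 : ℤ) ∈ Iic i := by simp; omega
      have h5 : (bdry p) (Iic i) = 1 := by
        simp only [bdry, Measure.coe_add, Measure.coe_smul, Pi.add_apply, Pi.smul_apply,
          Measure.dirac_apply, indicator_of_mem h3, indicator_of_mem h4, Pi.one_apply,
          smul_eq_mul, mul_one]
        rw [← ENNReal.ofReal_add hp0 (by linarith)]
        simp
      simp [Measure.real, h5]

/-- distribution function of cookie plus value -/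
lemma cd_add (p : unitInterval) (m : ℕ) (v : List (Fin d)) (i : ℤ) :
    (gm d p).real {x | x (Sum.inl v) + val x m v ≤ i} =
      (cd p m v (i - 1) + cd p m v (i + 1)) / 2 := by
  obtain ⟨h1, h2⟩ := cookie_prob p v
  have hprod : ∀ (c j : ℤ), (gm d p).real ({x | x (Sum.inl v) = c} ∩ {x | val x m v ≤ j}) =
      (gm d p).real {x | x (Sum.inl v) = c} * (gm d p).real {x | val x m v ≤ j} := fun c j =>
    depS_prod (Finset.disjoint_singleton_left.2 (self_notMem m v)) (depS_coord _ c)
      (depS_val m v j) p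
  have hm1 : MeasurableSet {x : Ix d → ℤ | x (Sum.inl v) = 1} := depS_meas (depS_coord _ 1)
  have hm2 : MeasurableSet {x : Ix d → ℤ | x (Sum.inl v) = -1} := depS_meas (depS_coord _ (-1))
  have hdisj : Disjoint {x : Ix d → ℤ | x (Sum.inl v) = 1} {x | x (Sum.inl v) = -1} := by
    rw [Set.disjoint_left]
    intro x h1 h2
    have h1' : x (Sum.inl v) = 1 := h1
    have h2' : x (Sum.inl v) = -1 := h2
    omega
  have hfull : (gm d p).real ({x | x (Sum.inl v) = 1} ∪ {x | x (Sum.inl v) = -1})ᶜ = 0 := by
    rw [probReal_compl_eq_one_sub (hm1.union hm2), measureReal_union hdisj hm2, h1, h2]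
    norm_num
  set Z := {x : Ix d → ℤ | x (Sum.inl v) + val x m v ≤ i} with hZ
  have e1 : (gm d p).real Z = (gm d p).real (Z ∩ ({x | x (Sum.inl v) = 1} ∪
      {x | x (Sum.inl v) = -1})) := by
    have h3 := measureReal_inter_add_diff (μ := gm d p) (s := Z) (hm1.union hm2)
    have h4 : (gm d p).real (Z \ ({x | x (Sum.inl v) = 1} ∪ {x | x (Sum.inl v) = -1})) = 0 := by
      refine le_antisymm ?_ measureReal_nonneg
      rw [← hfull]
      exact measureReal_mono fun ω hω => hω.2
    linarith
  have e2 : Z ∩ ({x | x (Sum.inl v) = 1} ∪ {x | x (Sum.inl v) = -1}) =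
      ({x | x (Sum.inl v) = 1} ∩ {x | val x m v ≤ i - 1}) ∪
      ({x | x (Sum.inl v) = -1} ∩ {x | val x m v ≤ i + 1}) := by
    ext x
    simp only [hZ, mem_inter_iff, mem_union, Set.mem_setOf_eq]
    constructor
    · rintro ⟨h3, h4 | h4⟩
      · left; exact ⟨h4, by omega⟩
      · right; exact ⟨h4, by omega⟩
    · rintro (⟨h3, h4⟩ | ⟨h3, h4⟩)
      · exact ⟨by omega, Or.inl h3⟩
      · exact ⟨by omega, Or.inr h3⟩
  have hm3 : MeasurableSet ({x : Ix d → ℤ | x (Sum.inl v) = -1} ∩ {x | val x m v ≤ i + 1}) :=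
    hm2.inter (depS_meas (depS_val m v _))
  rw [e1, e2, measureReal_union (hdisj.mono inter_subset_left inter_subset_left)
    hm3, hprod, hprod, h1, h2]
  unfold cd
  ring

/-- the recursion of the distribution functions -/
noncomputable def G (d : ℕ) (p : ℝ) : ℕ → Bool → ℤ → ℝ
  | 0, _, i => if i < 0 then 0 else if i < 2 then p else 1
  | m + 1, true, i => ((G d p m false (i - 1) + G d p m false (i + 1)) / 2) ^ d
  | m + 1, false, i => 1 - (1 - (G d p m true (i - 1) + G d p m true (i + 1)) / 2) ^ d

lemma sup_le_iff' (hd : 1 ≤ d) (f : Fin d → ℤ) (i : ℤ) : (⨆ c, f c) ≤ i ↔ ∀ c, f c ≤ i := by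
  haveI : Nonempty (Fin d) := ⟨⟨0, hd⟩⟩
  exact ciSup_le_iff (Set.finite_range f).bddAbove

lemma inf_le_iff' (hd : 1 ≤ d) (f : Fin d → ℤ) (i : ℤ) : (⨅ c, f c) ≤ i ↔ ∃ c, f c ≤ i := by
  haveI : Nonempty (Fin d) := ⟨⟨0, hd⟩⟩
  have h := le_ciInf_iff (f := f) (Set.finite_range f).bddBelow (a := i + 1)
  constructor
  · intro h1
    by_contra hcon
    push Not at hcon
    have h2 : i + 1 ≤ ⨅ c, f c := h.2 fun c => by have := hcon c; omega
    have h3 := h2.trans h1
    omega
  · rintro ⟨c, hc⟩
    exact (ciInf_le (Set.finite_range f).bddBelow c).trans hc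

lemma cd_eq (hd : 1 ≤ d) (p : unitInterval) (m : ℕ) :
    ∀ (v : List (Fin d)) (i : ℤ), cd p m v i = G d p m (decide (Even v.length)) i := by
  induction m with
  | zero =>
    intro v i
    exact bdry_prob p v i
  | succ m ih =>
    intro v i
    by_cases hv : Even v.length
    · have hdd : ∀ c : Fin d, decide (Even (c :: v).length) = false := by
        intro c
        simp only [List.length_cons, decide_eq_false_iff_not]
        rw [Nat.even_add_one]
        simpa using hv
      have hd2 : decide (Even v.length) = true := by simpa using hv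
      rw [hd2]
      have e : {x : Ix d → ℤ | val x (m + 1) v ≤ i} =
          ⋂ c ∈ (Finset.univ : Finset (Fin d)),
            {x | x (Sum.inl (c :: v)) + val x m (c :: v) ≤ i} := by
        ext x
        simp only [Set.mem_setOf_eq, val, if_pos hv, sup_le_iff' hd, mem_iInter,
          Finset.mem_univ, forall_true_left]
      unfold cd
      rw [e, prod_finset (fun c c' h => Br_disj m v h) (fun c => depS_Y m v c i) p]
      simp only [cd_add, ih, hdd, Finset.prod_const, Finset.card_univ, Fintype.card_fin]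
      rfl
    · have hdd : ∀ c : Fin d, decide (Even (c :: v).length) = true := by
        intro c
        simp only [List.length_cons, decide_eq_true_eq]
        rw [Nat.even_add_one]
        exact hv
      have hd2 : decide (Even v.length) = false := by simpa using hv
      rw [hd2]
      have e : {x : Ix d → ℤ | val x (m + 1) v ≤ i} =
          (⋂ c ∈ (Finset.univ : Finset (Fin d)),
            {x | x (Sum.inl (c :: v)) + val x m (c :: v) ≤ i}ᶜ)ᶜ := by
        ext x
        simp only [Set.mem_setOf_eq, val, if_neg hv, inf_le_iff' hd, mem_iInter,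
          Finset.mem_univ, forall_true_left, mem_compl_iff, not_forall, not_not]
      have hdep : ∀ c : Fin d, DepS (Br d m v c)
          {x | x (Sum.inl (c :: v)) + val x m (c :: v) ≤ i}ᶜ := fun c => depS_compl (depS_Y m v c i)
      unfold cd
      rw [e, probReal_compl_eq_one_sub (depS_meas (depS_finset hdep)),
        prod_finset (fun c c' h => Br_disj m v h) hdep p]
      simp only [fun c : Fin d => probReal_compl_eq_one_sub (μ := gm d p)
        (depS_meas (depS_Y m v c i)), cd_add, ih, hdd, Finset.prod_const, Finset.card_univ,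
        Fintype.card_fin]
      rfl

lemma G_eq (d : ℕ) (p : ℝ) (n : ℕ) : ∀ i : ℤ, G d p (2 * n) true i = O d p n (i / 2) := by
  induction n with
  | zero =>
    intro i
    show (if i < 0 then (0 : ℝ) else if i < 2 then p else 1) =
      if i / 2 < 0 then 0 else if i / 2 = 0 then p else 1
    by_cases hi : i < 0
    · rw [if_pos hi, if_pos (by omega)]
    · rw [if_neg hi, if_neg (show ¬ i / 2 < 0 by omega)]
      by_cases hi2 : i < 2
      · rw [if_pos hi2, if_pos (by omega)]
      · rw [if_neg hi2, if_neg (by omega)]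
  | succ n ih =>
    intro i
    show ((G d p (2 * n + 1) false (i - 1) + G d p (2 * n + 1) false (i + 1)) / 2) ^ d = _
    have h1 : ∀ j, G d p (2 * n + 1) false j = 1 - (1 - (G d p (2 * n) true (j - 1) +
        G d p (2 * n) true (j + 1)) / 2) ^ d := fun j => rfl
    rw [h1, h1]
    simp only [ih]
    have e1 : (i - 1 - 1) / 2 = i / 2 - 1 := by omega
    have e2 : (i - 1 + 1) / 2 = i / 2 := by omega
    have e3 : (i + 1 - 1) / 2 = i / 2 := by omega
    have e4 : (i + 1 + 1) / 2 = i / 2 + 1 := by omega
    rw [e1, e2, e3, e4]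
    show _ = (1 - (1 - (O d p n (i / 2 - 1) + O d p n (i / 2)) / 2) ^ d / 2 -
      (1 - (O d p n (i / 2) + O d p n (i / 2 + 1)) / 2) ^ d / 2) ^ d
    congr 1
    ring

/-- the distribution function of `V_n` -/
lemma cdf_V (hd : 1 ≤ d) (p : unitInterval) (n : ℕ) (i : ℤ) :
    (gm d p).real {x | val x (2 * n) [] ≤ i} = O d p n (i / 2) := by
  have := cd_eq hd p (2 * n) [] i
  unfold cd at this
  rw [this, ← G_eq]
  simp

lemma V_meas (n : ℕ) : Measurable fun x : Ix d → ℤ => val x (2 * n) [] := by
  refine measurable_of_Iic fun i => ?_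
  exact depS_meas (depS_val (2 * n) [] i)

end

end Pool.Agent.R975.MM
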