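import Mathlib
import Pool.Agent.R975.MM.Law

/-! Noisy min-max game on the `d`-ary tree: the critical point. -/

set_option autoImplicit false

namespace Pool.Agent.R975.MM

open Set Filter Topology MeasureTheory ProbabilityTheory

/-- The law of the root value `V_n^{(p)}`. -/
noncomputable def law (d : ℕ) (p : unitInterval) (n : ℕ) : ProbabilityMeasure ℤ :=
  ⟨(gm d p).map fun x => val x (2 * n) [],
    Measure.isProbabilityMeasure_map (V_meas n).aemeasurable⟩

/-- The law of `V + 2`, where `V` has law `μ`. -/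
noncomputable def shift (μ : ProbabilityMeasure ℤ) : ProbabilityMeasure ℤ :=
  μ.map (f := fun i : ℤ => i + 2) Measurable.of_discrete.aemeasurable

/-- The distribution function of a law on `ℤ`. -/
noncomputable def cdfZ (μ : ProbabilityMeasure ℤ) (i : ℤ) : ℝ := (μ : Measure ℤ).real (Iic i)

section

variable {d : ℕ}

lemma law_cdf (hd : 1 ≤ d) (p : unitInterval) (n : ℕ) (i : ℤ) :
    cdfZ (law d p n) i = O d p n (i / 2) := by
  unfold cdfZ
  show ((gm d p).map fun x => val x (2 * n) []).real (Iic i) = _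
  rw [map_measureReal_apply (V_meas n) measurableSet_Iic]
  exact cdf_V hd p n i

lemma shift_cdf (μ : ProbabilityMeasure ℤ) (i : ℤ) : cdfZ (shift μ) i = cdfZ μ (i - 2) := by
  unfold cdfZ
  show ((μ : Measure ℤ).map fun i : ℤ => i + 2).real (Iic i) = _
  rw [map_measureReal_apply Measurable.of_discrete measurableSet_Iic]
  congr 1
  ext j
  simp only [mem_preimage, mem_Iic]
  omega

lemma tendsto_iff {μs : ℕ → ProbabilityMeasure ℤ} {μ : ProbabilityMeasure ℤ} :
    Tendsto μs atTop (𝓝 μ) ↔ ∀ i, Tendsto (fun n => cdfZ (μs n) i) atTop (𝓝 (cdfZ μ i)) := by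
  constructor
  · intro h i
    have h1 := ProbabilityMeasure.tendsto_measure_of_null_frontier_of_tendsto' h (E := Iic i)
      (by simp)
    exact (ENNReal.tendsto_toReal (measure_ne_top _ _)).comp h1
  · intro h
    refine IsPiSystem.tendsto_probabilityMeasure_of_tendsto_of_mem
      (S := {S : Set ℤ | ∃ l ∈ (univ : Set ℤ), ∃ u ∈ (univ : Set ℤ), l < u ∧ Ioc l u = S})
      (isPiSystem_Ioc_mem univ univ) ?_ ?_ ?_
    · rintro s ⟨l, -, u, -, -, rfl⟩
      exact measurableSet_Ioc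
    · intro u hu x hx
      refine ⟨Ioc (x - 1) x, ⟨_, mem_univ _, _, mem_univ _, by omega, rfl⟩, ?_, ?_⟩
      · rw [mem_nhds_discrete]
        simp
      · intro y hy
        have : y = x := by
          have h1 := hy.1
          have h2 := hy.2
          omega
        rw [this]; exact hx
    · rintro s ⟨a, -, b, -, hab, rfl⟩
      have hn : ∀ ν : ProbabilityMeasure ℤ, (ν : Measure ℤ).real (Ioc a b) = cdfZ ν b - cdfZ ν a := by
        intro ν
        unfold cdfZ
        rw [← measureReal_diff (Iic_subset_Iic.2 hab.le) measurableSet_Iic]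
        congr 1
        ext j
        simp only [mem_Ioc, mem_diff, mem_Iic, not_le]
        tauto
      rw [← NNReal.tendsto_coe]
      have h1 := (h b).sub (h a)
      rw [← hn] at h1
      refine Tendsto.congr (fun n => ?_) h1
      rw [← hn]
      rfl

lemma cdf_inj {μ ν : ProbabilityMeasure ℤ} (h : ∀ i, cdfZ μ i = cdfZ ν i) : μ = ν := by
  have h1 : Tendsto (fun _ : ℕ => μ) atTop (𝓝 ν) := by
    rw [tendsto_iff]
    intro i
    rw [← h i]
    exact tendsto_const_nhds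
  exact tendsto_nhds_unique tendsto_const_nhds h1

/-- the Stieltjes function of a sequence -/
noncomputable def sf (f : ℤ → ℝ) (hf : Monotone f) : StieltjesFunction ℝ where
  toFun x := f (⌊x⌋ / 2)
  mono' := fun x y hxy => hf (Int.ediv_le_ediv (by norm_num) (Int.floor_mono hxy))
  right_continuous' := by
    intro x
    have h1 := tendsto_floor_right_pure_floor (α := ℝ) x
    have h2 : Tendsto (fun y : ℝ => (f (⌊y⌋ / 2) : ℝ)) (𝓝[≥] x) (pure (f (⌊x⌋ / 2) : ℝ)) :=
      (tendsto_pure_pure (fun k : ℤ => (f (k / 2) : ℝ)) ⌊x⌋).comp h1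
    exact h2.mono_right (pure_le_nhds _)

lemma exists_law {f : ℤ → ℝ} (hf : Nf d f) (h0 : Tendsto f atBot (𝓝 0))
    (h1 : Tendsto f atTop (𝓝 1)) : ∃ μ : ProbabilityMeasure ℤ, ∀ i, cdfZ μ i = f (i / 2) := by
  have hb : Tendsto (sf f hf.mono) atBot (𝓝 0) := by
    refine h0.comp (tendsto_atBot.2 fun b => ?_)
    filter_upwards [eventually_le_atBot ((2 * b : ℤ) : ℝ)] with x hx
    have : ⌊x⌋ ≤ 2 * b := by
      have := Int.floor_mono hx
      rwa [Int.floor_intCast] at this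
    omega
  have ht : Tendsto (sf f hf.mono) atTop (𝓝 1) := by
    refine h1.comp (tendsto_atTop.2 fun b => ?_)
    filter_upwards [eventually_ge_atTop ((2 * b : ℤ) : ℝ)] with x hx
    have : 2 * b ≤ ⌊x⌋ := Int.le_floor.2 hx
    omega
  have hprob : IsProbabilityMeasure (sf f hf.mono).measure :=
    (sf f hf.mono).isProbabilityMeasure hb ht
  refine ⟨⟨(sf f hf.mono).measure.map Int.ceil,
    Measure.isProbabilityMeasure_map Int.measurable_ceil.aemeasurable⟩, fun i => ?_⟩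
  unfold cdfZ
  show ((sf f hf.mono).measure.map Int.ceil).real (Iic i) = _
  rw [map_measureReal_apply Int.measurable_ceil measurableSet_Iic]
  have e : (Int.ceil ⁻¹' (Iic i) : Set ℝ) = Iic (i : ℝ) := by
    ext x
    simp [Int.ceil_le]
  rw [e]
  unfold Measure.real
  rw [(sf f hf.mono).measure_Iic hb, sub_zero]
  have e2 : sf f hf.mono (i : ℝ) = f (i / 2) := by
    show f (⌊(i : ℝ)⌋ / 2) = _
    rw [Int.floor_intCast]
  rw [e2, ENNReal.toReal_ofReal (hf.mem _).1]

lemma coe_mem (p : unitInterval) : (p : ℝ) ∈ Icc (0 : ℝ) 1 := p.2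

lemma exists_L (hd : Big d) : ∃ L : ProbabilityMeasure ℤ, ∀ i, cdfZ L i = Fi d (i / 2) :=
  exists_law (Fi_nf hd) (tail_left hd (Fi_nf hd) (Fi_fixed hd))
    (tail_right hd (Fi_nf hd) (Fi_fixed hd))

lemma conv_up (hd : Big d) {L : ProbabilityMeasure ℤ} (hL : ∀ i, cdfZ L i = Fi d (i / 2))
    {p : unitInterval} (hp : Up d p) : Tendsto (law d p) atTop (𝓝 L) := by
  rw [tendsto_iff]
  intro i
  rw [hL]
  simp only [law_cdf hd.pos]
  exact up_lim hd p.2 hp _

lemma conv_down (hd : Big d) {L : ProbabilityMeasure ℤ} (hL : ∀ i, cdfZ L i = Fi d (i / 2))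
    {p : unitInterval} (hp : Down d p) : Tendsto (law d p) atTop (𝓝 (shift L)) := by
  rw [tendsto_iff]
  intro i
  rw [shift_cdf, hL]
  simp only [law_cdf hd.pos]
  have e : (i - 2) / 2 = i / 2 - 1 := by omega
  rw [e]
  exact down_lim hd p.2 hp _

/-- **The threshold.** -/
theorem main1 : ∃ d0 : ℕ, ∀ d, d0 ≤ d → ∃ L : ProbabilityMeasure ℤ,
    Tendsto (law d 1) atTop (𝓝 L) ∧ ∃ pc : unitInterval, 0 < pc ∧ pc < 1 ∧
      (∀ p, p < pc → Tendsto (law d p) atTop (𝓝 (shift L))) ∧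
      (∀ p, pc < p → Tendsto (law d p) atTop (𝓝 L)) := by
  obtain ⟨d0, hd0⟩ := exists_big
  refine ⟨d0, fun d hdd => ?_⟩
  have hd := hd0 d hdd
  obtain ⟨L, hL⟩ := exists_L hd
  obtain ⟨pc, h0, h1, -, hdown, hup⟩ := exists_pc hd
  refine ⟨L, conv_up hd hL (up_one hd), ⟨pc, h0.le, h1.le⟩, ?_, ?_, ?_, ?_⟩
  · exact Subtype.coe_lt_coe.1 h0
  · exact Subtype.coe_lt_coe.1 h1
  · intro p hp
    exact conv_down hd hL (hdown p p.2 (Subtype.coe_lt_coe.2 hp))
  · intro p hp
    exact conv_up hd hL (hup p p.2 (Subtype.coe_lt_coe.2 hp))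

/-! ### at the critical point -/

/-- A critical point: `V_n^{(p)}` converges in distribution to `L0` for all `p` on one side of it
and to `L0 + 2` for all `p` on the other side. -/
def IsCritical (d : ℕ) (L0 : ProbabilityMeasure ℤ) (pc : unitInterval) : Prop :=
  0 < pc ∧ pc < 1 ∧
    (((∀ p, pc < p → Tendsto (law d p) atTop (𝓝 L0)) ∧
        ∀ p, p < pc → Tendsto (law d p) atTop (𝓝 (shift L0))) ∨
      ((∀ p, p < pc → Tendsto (law d p) atTop (𝓝 L0)) ∧
        ∀ p, pc < p → Tendsto (law d p) atTop (𝓝 (shift L0))))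

/-- The function `g`. -/
noncomputable def gg (d : ℕ) (x y z : ℝ) : ℝ :=
  (1 - 1 / 2 * (1 - (x + y) / 2) ^ d - 1 / 2 * (1 - (y + z) / 2) ^ d) ^ d

/-- The map `Ψ` on distribution functions on `ℤ`. -/
noncomputable def PsiZ (d : ℕ) (F : ℤ → ℝ) (i : ℤ) : ℝ := gg d (F (i - 2)) (F i) (F (i + 2))

/-- Distribution functions on `ℤ`. -/
def IsCDF (F : ℤ → ℝ) : Prop :=
  Monotone F ∧ Tendsto F atBot (𝓝 0) ∧ Tendsto F atTop (𝓝 1)

/-- Stability of a fixed point: all distribution functions close to it in the sup norm have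
`Ψ`-iterates which converge to it. -/
def Stable (d : ℕ) (F : ℤ → ℝ) : Prop :=
  ∃ δ > 0, ∀ G, IsCDF G → (∀ i, |G i - F i| ≤ δ) →
    ∀ i, Tendsto (fun n => (PsiZ d)^[n] G i) atTop (𝓝 (F i))

lemma gg_eq (d : ℕ) (x y z : ℝ) : gg d x y z = g d x y z := by
  unfold gg g H
  ring

lemma PsiZ_half (d : ℕ) (f : ℤ → ℝ) (i : ℤ) :
    PsiZ d (fun j => f (j / 2)) i = Psi d f (i / 2) := by
  unfold PsiZ Psi
  rw [gg_eq]
  have e1 : (i - 2) / 2 = i / 2 - 1 := by omega
  have e2 : (i + 2) / 2 = i / 2 + 1 := by omega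
  simp only [e1, e2]

lemma PsiZ_iter (d : ℕ) (p : ℝ) (n m : ℕ) :
    (PsiZ d)^[m] (fun j => O d p n (j / 2)) = fun j => O d p (n + m) (j / 2) := by
  induction m with
  | zero => rfl
  | succ m ih =>
    rw [Function.iterate_succ_apply', ih]
    funext i
    rw [PsiZ_half]
    rfl

lemma O_zero_left (hd : 1 ≤ d) (p : ℝ) (n : ℕ) : ∀ k : ℤ, k < -n → O d p n k = 0 := by
  induction n with
  | zero =>
    intro k hk
    have hk' : k < 0 := by simpa using hk
    show D p k = 0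
    unfold D
    rw [if_pos hk']
  | succ n ih =>
    intro k hk
    push_cast at hk
    show g d (O d p n (k - 1)) (O d p n k) (O d p n (k + 1)) = 0
    rw [ih _ (by omega), ih _ (by omega), ih _ (by omega)]
    unfold g H
    norm_num
    omega

lemma O_one_right (hd : 1 ≤ d) (p : ℝ) (n : ℕ) : ∀ k : ℤ, n < k → O d p n k = 1 := by
  induction n with
  | zero =>
    intro k hk
    have hk' : 0 < k := by simpa using hk
    show D p k = 1
    unfold D
    rw [if_neg (by omega), if_neg (by omega)]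
  | succ n ih =>
    intro k hk
    push_cast at hk
    show g d (O d p n (k - 1)) (O d p n k) (O d p n (k + 1)) = 1
    rw [ih _ (by omega), ih _ (by omega), ih _ (by omega)]
    unfold g H
    have : (0 : ℝ) ^ d = 0 := zero_pow (by omega)
    norm_num [this]

lemma O_cdf (hd : Big d) {p : ℝ} (hp : p ∈ Icc (0 : ℝ) 1) (n : ℕ) :
    IsCDF fun j => O d p n (j / 2) := by
  refine ⟨fun i j hij => (O_nf hd hp n).mono (Int.ediv_le_ediv (by norm_num) hij), ?_, ?_⟩
  · refine tendsto_const_nhds.congr' ?_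
    filter_upwards [eventually_lt_atBot (2 * (-(n : ℤ)))] with i hi
    exact (O_zero_left hd.pos p n _ (by omega)).symm
  · refine tendsto_const_nhds.congr' ?_
    filter_upwards [eventually_gt_atTop (2 * (n : ℤ) + 1)] with i hi
    exact (O_one_right hd.pos p n _ (by omega)).symm

lemma g_lip {x y z x' y' z' δ : ℝ} (hx : x ∈ Icc (0 : ℝ) 1) (hy : y ∈ Icc (0 : ℝ) 1)
    (hz : z ∈ Icc (0 : ℝ) 1) (hx' : x' ∈ Icc (0 : ℝ) 1) (hy' : y' ∈ Icc (0 : ℝ) 1)
    (hz' : z' ∈ Icc (0 : ℝ) 1) (d1 : |x - x'| ≤ δ) (d2 : |y - y'| ≤ δ) (d3 : |z - z'| ≤ δ) :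
    |g d x y z - g d x' y' z'| ≤ (d : ℝ) ^ 2 * δ := by
  have ha := avg_mem hx hy
  have hb := avg_mem hy hz
  have ha' := avg_mem hx' hy'
  have hb' := avg_mem hy' hz'
  have h5 := H_lip (d := d) (M := 1) (m1 := 1) (m2 := 1) ha hb ha' hb'
    (uu_mem ha hb).2 (uu_mem ha' hb').2 (by linarith [ha.1]) (by linarith [ha'.1])
    (by linarith [hb.1]) (by linarith [hb'.1]) (avg_dist d1 d2) (avg_dist d2 d3)
  refine h5.trans (le_of_eq ?_)
  simp only [one_pow]
  ring

lemma O_lip (hd : Big d) {p q : ℝ} (hp : p ∈ Icc (0 : ℝ) 1) (hq : q ∈ Icc (0 : ℝ) 1) (n : ℕ) :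
    ∀ k, |O d p n k - O d q n k| ≤ ((d : ℝ) ^ 2) ^ n * |p - q| := by
  induction n with
  | zero =>
    intro k
    show |D p k - D q k| ≤ _
    unfold D
    split_ifs
    · simp
    · simp
    · simp
  | succ n ih =>
    intro k
    have h := g_lip (d := d) ((O_nf hd hp n).mem (k - 1)) ((O_nf hd hp n).mem k)
      ((O_nf hd hp n).mem (k + 1)) ((O_nf hd hq n).mem (k - 1)) ((O_nf hd hq n).mem k)
      ((O_nf hd hq n).mem (k + 1)) (ih _) (ih _) (ih _)
    refine le_trans h (le_of_eq ?_)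
    rw [pow_succ ((d : ℝ) ^ 2)]
    ring

/-- **At criticality.** -/
theorem main2 : ∃ d0 : ℕ, ∀ d, d0 ≤ d → ∀ L0 : ProbabilityMeasure ℤ,
    Tendsto (law d 1) atTop (𝓝 L0) → ∀ pc : unitInterval, IsCritical d L0 pc →
      ∃ μ : ProbabilityMeasure ℤ, Tendsto (law d pc) atTop (𝓝 μ) ∧ μ ≠ L0 ∧ μ ≠ shift L0 ∧
        PsiZ d (cdfZ μ) = cdfZ μ ∧ ¬ Stable d (cdfZ μ) := by
  obtain ⟨d0, hd0⟩ := exists_big
  refine ⟨d0, fun d hdd L0 hL0 pc hpc => ?_⟩
  have hd := hd0 d hdd
  obtain ⟨L, hL⟩ := exists_L hd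
  have hLL : L0 = L := tendsto_nhds_unique hL0 (conv_up hd hL (up_one hd))
  subst hLL
  obtain ⟨qc, h0, h1, hmid, hdown, hup⟩ := exists_pc hd
  -- the two limits are different
  have hF0 := Fi_zero hd
  have hFm := Fi_neg_one hd
  have hne : L0 ≠ shift L0 := by
    intro h
    have h2 := congrArg (fun μ => cdfZ μ 0) h
    simp only [shift_cdf, hL] at h2
    have e : ((0 : ℤ) - 2) / 2 = -1 := by norm_num
    have e0 : (0 : ℤ) / 2 = 0 := by norm_num
    rw [e, e0] at h2
    rw [h2] at hF0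
    linarith
  -- the critical point is `qc`
  have hU : ∀ p : unitInterval, qc < p → Tendsto (law d p) atTop (𝓝 L0) := fun p hp =>
    conv_up hd hL (hup p p.2 hp)
  have hDn : ∀ p : unitInterval, (p : ℝ) < qc → Tendsto (law d p) atTop (𝓝 (shift L0)) :=
    fun p hp => conv_down hd hL (hdown p p.2 hp)
  obtain ⟨hc0, hc1, hc⟩ := hpc
  have hpq : (pc : ℝ) = qc := by
    rcases hc with ⟨hc2, hc3⟩ | ⟨hc2, hc3⟩
    · rcases lt_trichotomy (pc : ℝ) qc with h | h | h
      · exfalso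
        obtain ⟨r, hr1, hr2⟩ := exists_between h
        have hr : r ∈ Icc (0 : ℝ) 1 := ⟨pc.2.1.trans hr1.le, hr2.le.trans h1.le⟩
        have e1 := hc2 ⟨r, hr⟩ (Subtype.coe_lt_coe.1 hr1)
        have e2 := hDn ⟨r, hr⟩ hr2
        exact hne (tendsto_nhds_unique e1 e2)
      · exact h
      · exfalso
        obtain ⟨r, hr1, hr2⟩ := exists_between h
        have hr : r ∈ Icc (0 : ℝ) 1 := ⟨h0.le.trans hr1.le, hr2.le.trans pc.2.2⟩
        have e1 := hc3 ⟨r, hr⟩ (Subtype.coe_lt_coe.1 hr2)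
        have e2 := hU ⟨r, hr⟩ hr1
        exact hne (tendsto_nhds_unique e2 e1)
    · exfalso
      exact hne (tendsto_nhds_unique hL0 (hc3 1 hc1))
  obtain ⟨f, hf1, hfK, hfN, hfix⟩ := mid_lim hd (p := qc) ⟨h0.le, h1.le⟩ hmid
  obtain ⟨μ, hμ⟩ := exists_law hfN (tail_left hd hfN hfix) (tail_right hd hfN hfix)
  have hf14 : f 0 < 1 / 4 := hfK.2.trans_lt (Y2_lt hd)
  have hcdf : cdfZ μ = fun j => f (j / 2) := funext hμ
  refine ⟨μ, ?_, ?_, ?_, ?_, ?_⟩
  · rw [tendsto_iff]
    intro i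
    rw [hμ]
    simp only [law_cdf hd.pos, hpq]
    have h3 : Tendsto (fun n : ℕ => 8 * (1 / 2 : ℝ) ^ n) atTop (𝓝 0) := by
      have := (tendsto_pow_atTop_nhds_zero_of_lt_one (show (0 : ℝ) ≤ 1 / 2 by norm_num)
        (by norm_num)).const_mul 8
      rwa [mul_zero] at this
    rw [tendsto_iff_dist_tendsto_zero]
    refine squeeze_zero (fun n => dist_nonneg) (fun n => ?_) h3
    rw [Real.dist_eq]
    exact hf1 n _
  · intro h
    have h2 := congrArg (fun μ => cdfZ μ 0) h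
    simp only [hL, hμ] at h2
    have e0 : (0 : ℤ) / 2 = 0 := by norm_num
    rw [e0] at h2
    rw [h2] at hf14
    linarith
  · intro h
    have h2 := congrArg (fun μ => cdfZ μ 0) h
    simp only [shift_cdf, hL, hμ] at h2
    have e : ((0 : ℤ) - 2) / 2 = -1 := by norm_num
    have e0 : (0 : ℤ) / 2 = 0 := by norm_num
    rw [e, e0] at h2
    have h3 := (Fi_nf hd).left_le hd (k := -1) le_rfl
    have h4 := Y1_gt hd
    have h5 := mul_le_mul_of_nonneg_left hfK.1 hd.dpos.le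
    rw [h2] at h5
    linarith
  · rw [hcdf]
    funext i
    rw [PsiZ_half, hfix]
  · rintro ⟨δ, hδ, hst⟩
    rw [hcdf] at hst
    obtain ⟨n, hn⟩ := exists_pow_lt_of_lt_one (show 0 < δ / 16 by linarith)
      (show (1 / 2 : ℝ) < 1 by norm_num)
    have hC : (0 : ℝ) < ((d : ℝ) ^ 2) ^ n := by have := hd.dpos; positivity
    obtain ⟨r, hr1, hr2⟩ := exists_between (show qc < min 1 (qc + δ / 2 / ((d : ℝ) ^ 2) ^ n) from
      lt_min h1 (by have : 0 < δ / 2 / ((d : ℝ) ^ 2) ^ n := by positivity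
                    linarith))
    have hr3 := lt_min_iff.1 hr2
    have hr : r ∈ Icc (0 : ℝ) 1 := ⟨h0.le.trans hr1.le, hr3.1.le⟩
    have hclose : ∀ i : ℤ, |O d r n (i / 2) - f (i / 2)| ≤ δ := by
      intro i
      have a1 := O_lip hd hr (q := qc) ⟨h0.le, h1.le⟩ n (i / 2)
      have a2 := hf1 n (i / 2)
      have a3 : ((d : ℝ) ^ 2) ^ n * |r - qc| ≤ δ / 2 := by
        rw [abs_of_pos (by linarith)]
        have : r - qc ≤ δ / 2 / ((d : ℝ) ^ 2) ^ n := by linarith [hr3.2]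
        have h6 := mul_le_mul_of_nonneg_left this hC.le
        rwa [mul_div_cancel₀ _ hC.ne'] at h6
      have a4 := abs_sub_le (O d r n (i / 2)) (O d qc n (i / 2)) (f (i / 2))
      linarith
    have h3 := hst (fun j => O d r n (j / 2)) (O_cdf hd hr n) hclose 0
    simp only [PsiZ_iter] at h3
    have e0 : (0 : ℤ) / 2 = 0 := by norm_num
    rw [e0] at h3
    have h4 := (up_lim hd hr (hup r hr hr1) 0).comp (tendsto_add_atTop_nat n)
    have h5 : Tendsto (fun m => O d r (n + m) 0) atTop (𝓝 (Fi d 0)) := by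
      refine h4.congr fun m => ?_
      show O d r (m + n) 0 = _
      rw [add_comm]
    have h6 := tendsto_nhds_unique h3 h5
    rw [h6] at hf14
    linarith

end

end Pool.Agent.R975.MM
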